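import Pool.Agent.Lib.MP_0067de_h58.Def

open MeasureTheory Set Filter Topology
open scoped ENNReal NNReal ContDiff

namespace Pool.Agent.Results.MP_0067de_an.DecreasingKernel

/-! ### the bump -/

/-- the unnormalised bump `exp(-1/(1-x²))` on `(-1, 1)`, zero outside -/
noncomputable def g0 (x : ℝ) : ℝ := expNegInvGlue (1 - x ^ 2)

lemma g0_nonneg (x : ℝ) : 0 ≤ g0 x := expNegInvGlue.nonneg _

lemma g0_zero {x : ℝ} (hx : 1 ≤ |x|) : g0 x = 0 := by
  unfold g0
  apply expNegInvGlue.zero_of_nonpos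
  nlinarith [sq_abs x]

lemma g0_contDiff {n : ℕ∞} : ContDiff ℝ n g0 := by
  unfold g0
  exact expNegInvGlue.contDiff.comp (contDiff_const.sub (contDiff_id.pow 2))

lemma g0_continuous : Continuous g0 := (g0_contDiff (n := 0)).continuous

lemma g0_hasCompactSupport : HasCompactSupport g0 := by
  apply HasCompactSupport.intro (isCompact_Icc (a := (-1 : ℝ)) (b := 1))
  intro x hx
  apply g0_zero
  by_contra h
  push Not at h
  rw [abs_lt] at h
  exact hx ⟨h.1.le, h.2.le⟩

lemma g0_integrable : Integrable g0 := g0_continuous.integrable_of_hasCompactSupport g0_hasCompactSupport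

lemma g0_integral_pos : 0 < ∫ x, g0 x := by
  apply g0_continuous.integral_pos_of_hasCompactSupport_nonneg_nonzero g0_hasCompactSupport
    g0_nonneg (x := 0)
  unfold g0
  exact (expNegInvGlue.pos_of_pos (by norm_num)).ne'

lemma g0_anti {x y : ℝ} (h : |x| ≤ |y|) : g0 y ≤ g0 x := by
  unfold g0
  apply expNegInvGlue.monotone
  have := sq_le_sq.2 h
  linarith

/-- the normalised bump -/
noncomputable def b (x : ℝ) : ℝ := (∫ y, g0 y)⁻¹ * g0 x

lemma b_nonneg (x : ℝ) : 0 ≤ b x := mul_nonneg (inv_nonneg.2 g0_integral_pos.le) (g0_nonneg x)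

lemma b_zero {x : ℝ} (hx : 1 ≤ |x|) : b x = 0 := by
  unfold b
  rw [g0_zero hx, mul_zero]

lemma b_anti {x y : ℝ} (h : |x| ≤ |y|) : b y ≤ b x :=
  mul_le_mul_of_nonneg_left (g0_anti h) (inv_nonneg.2 g0_integral_pos.le)

lemma b_even (x : ℝ) : b (-x) = b x :=
  le_antisymm (b_anti (abs_neg x).ge) (b_anti (abs_neg x).le)

lemma b_contDiff {n : ℕ∞} : ContDiff ℝ n b := contDiff_const.mul g0_contDiff

lemma b_continuous : Continuous b := (b_contDiff (n := 0)).continuous

lemma b_hasCompactSupport : HasCompactSupport b := g0_hasCompactSupport.mul_left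

lemma b_integrable : Integrable b := g0_integrable.const_mul _

lemma b_integral : ∫ x, b x = 1 := by
  unfold b
  rw [integral_const_mul, inv_mul_cancel₀ g0_integral_pos.ne']

/-! ### the weights -/

noncomputable def p (j : ℕ) : ℝ := 3 / 4 ^ (j + 1)

lemma p_pos (j : ℕ) : 0 < p j := by unfold p; positivity

lemma p_hasSum : HasSum p 1 := by
  have h := (hasSum_geometric_of_lt_one (r := (1/4 : ℝ)) (by norm_num) (by norm_num)).mul_left (3/4)
  have e : p = fun i : ℕ => (3/4 : ℝ) * (1/4) ^ i := by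
    funext i
    unfold p
    rw [pow_succ, one_div, inv_pow]
    field_simp
  rw [e]
  have h2 : (3/4 : ℝ) * (1 - 1/4)⁻¹ = 1 := by norm_num
  rw [h2] at h
  exact h

lemma p_tail (j : ℕ) : HasSum (fun i => p (i + j)) ((1/4 : ℝ) ^ j) := by
  have h := p_hasSum.mul_left ((1/4 : ℝ) ^ j)
  rw [mul_one] at h
  have e : (fun i => p (i + j)) = fun i => (1/4 : ℝ) ^ j * p i := by
    funext i
    unfold p
    rw [one_div, inv_pow, show i + j + 1 = (i + 1) + j by ring, pow_add]
    field_simp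
  rw [e]
  exact h

/-! ### the step kernel -/

/-- the step kernel -/
noncomputable def phis (R : ℕ → ℝ) (u : ℝ) : ℝ :=
  ∑' j, p j * (2 * R j)⁻¹ * (Icc (-(R j)) (R j)).indicator (fun _ => (1 : ℝ)) u

/-- the smooth kernel -/
noncomputable def phi (R : ℕ → ℝ) (u : ℝ) : ℝ := ∫ v, phis R v * b (u - v)

/-- the average over the interval of radius `u` about `x` -/
noncomputable def Av (F : ℝ → ℝ) (u x : ℝ) : ℝ := (2 * u)⁻¹ * ∫ y in (x - u)..(x + u), F y

/-- one term of the step kernel -/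
noncomputable def term (R : ℕ → ℝ) (j : ℕ) (u : ℝ) : ℝ :=
  p j * (2 * R j)⁻¹ * (Icc (-(R j)) (R j)).indicator (fun _ => (1 : ℝ)) u

section
variable {R : ℕ → ℝ}

lemma ind_nonneg (r u : ℝ) : 0 ≤ (Icc (-r) r).indicator (fun _ => (1 : ℝ)) u :=
  indicator_nonneg (fun _ _ => zero_le_one) u

lemma ind_le_one (r u : ℝ) : (Icc (-r) r).indicator (fun _ => (1 : ℝ)) u ≤ 1 := by
  by_cases h : u ∈ Icc (-r) r
  · rw [indicator_of_mem h]
  · rw [indicator_of_notMem h]; exact zero_le_one

lemma ind_anti (r : ℝ) {u v : ℝ} (h : |u| ≤ |v|) :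
    (Icc (-r) r).indicator (fun _ => (1 : ℝ)) v ≤ (Icc (-r) r).indicator (fun _ => (1 : ℝ)) u := by
  by_cases hv : v ∈ Icc (-r) r
  · have hu : u ∈ Icc (-r) r := by
      rw [mem_Icc, ← abs_le] at hv ⊢
      exact h.trans hv
    rw [indicator_of_mem hv, indicator_of_mem hu]
  · rw [indicator_of_notMem hv]
    exact ind_nonneg r u

lemma coef_nonneg (hR : ∀ j, 1 ≤ R j) (j : ℕ) : 0 ≤ p j * (2 * R j)⁻¹ := by
  have := p_pos j
  have := hR j
  positivity

lemma coef_le (hR : ∀ j, 1 ≤ R j) (j : ℕ) : p j * (2 * R j)⁻¹ ≤ p j * 1 := by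
  have h1 := p_pos j
  have h2 := hR j
  have h3 : (2 * R j)⁻¹ ≤ 1 := inv_le_one_of_one_le₀ (by linarith)
  exact mul_le_mul_of_nonneg_left h3 h1.le

lemma term_nonneg (hR : ∀ j, 1 ≤ R j) (j : ℕ) (u : ℝ) : 0 ≤ term R j u :=
  mul_nonneg (coef_nonneg hR j) (ind_nonneg _ _)

lemma term_le (hR : ∀ j, 1 ≤ R j) (j : ℕ) (u : ℝ) : term R j u ≤ p j := by
  have h1 := coef_nonneg hR j
  have h2 := coef_le hR j
  have h3 := ind_le_one (R j) u
  have h4 := ind_nonneg (R j) u
  unfold term
  nlinarith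

lemma term_summable (hR : ∀ j, 1 ≤ R j) (u : ℝ) : Summable (fun j => term R j u) :=
  Summable.of_nonneg_of_le (fun j => term_nonneg hR j u) (fun j => term_le hR j u)
    p_hasSum.summable

lemma term_anti (hR : ∀ j, 1 ≤ R j) (j : ℕ) {u v : ℝ} (h : |u| ≤ |v|) :
    term R j v ≤ term R j u :=
  mul_le_mul_of_nonneg_left (ind_anti _ h) (coef_nonneg hR j)

lemma phis_nonneg (hR : ∀ j, 1 ≤ R j) (u : ℝ) : 0 ≤ phis R u :=
  tsum_nonneg (fun j => term_nonneg hR j u)

lemma phis_le_one (hR : ∀ j, 1 ≤ R j) (u : ℝ) : phis R u ≤ 1 := by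
  rw [← p_hasSum.tsum_eq]
  exact (term_summable hR u).tsum_le_tsum (fun j => term_le hR j u) p_hasSum.summable

lemma phis_anti (hR : ∀ j, 1 ≤ R j) {u v : ℝ} (h : |u| ≤ |v|) : phis R v ≤ phis R u :=
  (term_summable hR v).tsum_le_tsum (fun j => term_anti hR j h) (term_summable hR u)

lemma phis_even (hR : ∀ j, 1 ≤ R j) (u : ℝ) : phis R (-u) = phis R u :=
  le_antisymm (phis_anti hR (abs_neg u).ge) (phis_anti hR (abs_neg u).le)

lemma term_measurable (R : ℕ → ℝ) (j : ℕ) : Measurable (term R j) :=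
  (measurable_const.indicator measurableSet_Icc).const_mul _

lemma phis_measurable (hR : ∀ j, 1 ≤ R j) : Measurable (phis R) := by
  have h : ∀ u, Tendsto (fun n => ∑ j ∈ Finset.range n, term R j u) atTop (𝓝 (phis R u)) :=
    fun u => (term_summable hR u).hasSum.tendsto_sum_nat
  exact measurable_of_tendsto_metrizable
    (fun n => Finset.measurable_sum _ fun j _ => term_measurable R j) (tendsto_pi_nhds.2 h)

/-- integral of one term against a bounded function -/
lemma term_mul_integral (R : ℕ → ℝ) (j : ℕ) (hj : 0 ≤ R j) (h : ℝ → ℝ) :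
    ∫ u, term R j u * h u = p j * ((2 * R j)⁻¹ * ∫ u in (-(R j))..(R j), h u) := by
  have e : ∀ u, term R j u * h u = (p j * (2 * R j)⁻¹) * (Icc (-(R j)) (R j)).indicator h u := by
    intro u
    unfold term
    by_cases hu : u ∈ Icc (-(R j)) (R j)
    · rw [indicator_of_mem hu, indicator_of_mem hu]; ring
    · rw [indicator_of_notMem hu, indicator_of_notMem hu]; ring
  simp only [e]
  rw [integral_const_mul, integral_indicator measurableSet_Icc,
    intervalIntegral.integral_of_le (by linarith), integral_Icc_eq_integral_Ioc, mul_assoc]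

lemma ind_integrable (r : ℝ) : Integrable ((Icc (-r) r).indicator (fun _ => (1 : ℝ))) :=
  (integrable_indicator_iff measurableSet_Icc).2 (by simp [integrableOn_const_iff])

lemma term_integrable (R : ℕ → ℝ) (j : ℕ) : Integrable (term R j) :=
  (ind_integrable (R j)).const_mul _

lemma term_mul_integrable (R : ℕ → ℝ) (j : ℕ) {h : ℝ → ℝ} {M : ℝ} (hm : Measurable h)
    (hM : ∀ u, |h u| ≤ M) : Integrable (fun u => term R j u * h u) :=
  (term_integrable R j).mul_bdd (c := M) hm.aestronglyMeasurable (Eventually.of_forall hM)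

lemma term_integral (hR : ∀ j, 1 ≤ R j) (j : ℕ) : ∫ u, term R j u = p j := by
  have h := term_mul_integral R j (by linarith [hR j]) (fun _ => 1)
  simp only [mul_one] at h
  rw [h]
  have := hR j
  simp only [intervalIntegral.integral_const, smul_eq_mul, mul_one]
  field_simp
  ring

lemma phis_hasSum_integral (hR : ∀ j, 1 ≤ R j) {h : ℝ → ℝ} {M : ℝ} (hm : Measurable h)
    (hM : ∀ u, |h u| ≤ M) :
    HasSum (fun j => p j * ((2 * R j)⁻¹ * ∫ u in (-(R j))..(R j), h u)) (∫ u, phis R u * h u) := by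
  have key := hasSum_integral_of_summable_integral_norm (μ := (volume : Measure ℝ))
    (F := fun (j : ℕ) (u : ℝ) => term R j u * h u)
    (fun j => term_mul_integrable R j hm hM) ?_
  · have e1 : ∀ j, ∫ u, term R j u * h u = p j * ((2 * R j)⁻¹ * ∫ u in (-(R j))..(R j), h u) :=
      fun j => term_mul_integral R j (by linarith [hR j]) h
    have e2 : ∀ u, ∑' j, term R j u * h u = phis R u * h u := fun u => by
      rw [tsum_mul_right]
      rfl
    simp only [e1, e2] at key
    exact key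
  · refine Summable.of_nonneg_of_le (fun j => integral_nonneg fun u => norm_nonneg _)
      (fun j => ?_) (p_hasSum.summable.mul_right M)
    have e : ∀ u, ‖term R j u * h u‖ ≤ term R j u * M := fun u => by
      rw [norm_mul, Real.norm_eq_abs, Real.norm_eq_abs, abs_of_nonneg (term_nonneg hR j u)]
      exact mul_le_mul_of_nonneg_left (hM u) (term_nonneg hR j u)
    calc ∫ u, ‖term R j u * h u‖ ≤ ∫ u, term R j u * M :=
          integral_mono (term_mul_integrable R j hm hM).norm ((term_integrable R j).mul_const M) e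
      _ = p j * M := by rw [integral_mul_const, term_integral hR]

lemma phis_integral (hR : ∀ j, 1 ≤ R j) : ∫ u, phis R u = 1 := by
  have h := phis_hasSum_integral hR (h := fun _ => 1) (M := 1) measurable_const (by simp)
  have e : ∀ j, p j * ((2 * R j)⁻¹ * ∫ _ in (-(R j))..(R j), (1 : ℝ)) = p j := by
    intro j
    have h2 := term_mul_integral R j (by linarith [hR j]) (fun _ => 1)
    simp only [mul_one] at h2
    rw [← h2, term_integral hR]
  simp only [e, mul_one] at h
  exact h.unique p_hasSum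

lemma phis_integrable (hR : ∀ j, 1 ≤ R j) : Integrable (phis R) := by
  by_contra h
  have := integral_undef h
  rw [phis_integral hR] at this
  norm_num at this

/-! ### the smooth kernel -/

open scoped Convolution in
lemma phi_eq_conv (R : ℕ → ℝ) :
    phi R = convolution (phis R) b (ContinuousLinearMap.mul ℝ ℝ) volume := by
  funext u
  rfl

lemma phi_nonneg (hR : ∀ j, 1 ≤ R j) (u : ℝ) : 0 ≤ phi R u :=
  integral_nonneg fun v => mul_nonneg (phis_nonneg hR v) (b_nonneg _)

lemma phi_integrable (hR : ∀ j, 1 ≤ R j) : Integrable (phi R) := by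
  rw [phi_eq_conv]
  exact (phis_integrable hR).integrable_convolution _ b_integrable

lemma phi_integral (hR : ∀ j, 1 ≤ R j) : ∫ u, phi R u = 1 := by
  rw [phi_eq_conv, integral_convolution _ (phis_integrable hR) b_integrable, phis_integral hR,
    b_integral]
  simp

lemma phi_contDiff (hR : ∀ j, 1 ≤ R j) : ContDiff ℝ ∞ (phi R) := by
  rw [phi_eq_conv]
  exact b_hasCompactSupport.contDiff_convolution_right _ (phis_integrable hR).locallyIntegrable
    b_contDiff

lemma phi_int_integrable (hR : ∀ j, 1 ≤ R j) (u : ℝ) :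
    Integrable (fun v => phis R v * b (u - v)) := by
  refine (b_integrable.comp_sub_left u).bdd_mul (c := 1) (phis_measurable hR).aestronglyMeasurable
    (Eventually.of_forall fun v => ?_)
  rw [Real.norm_eq_abs, abs_of_nonneg (phis_nonneg hR v)]
  exact phis_le_one hR v

lemma phi_le_one (hR : ∀ j, 1 ≤ R j) (u : ℝ) : phi R u ≤ 1 := by
  have h1 : ∫ v, b (u - v) = 1 := by
    rw [integral_sub_left_eq_self b volume u, b_integral]
  rw [← h1]
  refine integral_mono (phi_int_integrable hR u) (b_integrable.comp_sub_left u) fun v => ?_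
  dsimp only
  nlinarith [phis_le_one hR v, b_nonneg (u - v), phis_nonneg hR v]

lemma phi_even (hR : ∀ j, 1 ≤ R j) (u : ℝ) : phi R (-u) = phi R u := by
  unfold phi
  rw [← integral_neg_eq_self (fun v => phis R v * b (-u - v))]
  congr 1
  funext v
  rw [phis_even hR, show -u - -v = -(u - v) by ring, b_even]

lemma phi_antitone (hR : ∀ j, 1 ≤ R j) : AntitoneOn (phi R) (Ici 0) := by
  intro u hu u' _ huu'
  rw [mem_Ici] at hu
  have e1 : phi R u = ∫ v, phis R (u + u' - v) * b (u' - v) := by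
    unfold phi
    rw [← integral_sub_left_eq_self (fun v => phis R v * b (u - v)) volume (u + u')]
    congr 1
    funext v
    rw [show u - (u + u' - v) = -(u' - v) by ring, b_even]
  have e2 : phi R u' = ∫ v, phis R (u + u' - v) * b (u - v) := by
    unfold phi
    rw [← integral_sub_left_eq_self (fun v => phis R v * b (u' - v)) volume (u + u')]
    congr 1
    funext v
    rw [show u' - (u + u' - v) = -(u - v) by ring, b_even]
  have i1 := phi_int_integrable hR u
  have i2 := phi_int_integrable hR u'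
  have i3 : Integrable (fun v => phis R (u + u' - v) * b (u' - v)) := by
    have h := (phi_int_integrable hR u).comp_sub_left (u + u')
    refine h.congr (Eventually.of_forall fun v => ?_)
    dsimp only
    rw [show u - (u + u' - v) = -(u' - v) by ring, b_even]
  have i4 : Integrable (fun v => phis R (u + u' - v) * b (u - v)) := by
    have h := (phi_int_integrable hR u').comp_sub_left (u + u')
    refine h.congr (Eventually.of_forall fun v => ?_)
    dsimp only
    rw [show u' - (u + u' - v) = -(u - v) by ring, b_even]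
  have key : ∫ v, phis R v * b (u' - v) + phis R (u + u' - v) * b (u - v) ≤
      ∫ v, phis R v * b (u - v) + phis R (u + u' - v) * b (u' - v) := by
    refine integral_mono (i2.add i4) (i1.add i3) fun v => ?_
    dsimp only
    rcases le_total (2 * v) (u + u') with hv | hv
    · have h1 : phis R (u + u' - v) ≤ phis R v := by
        apply phis_anti hR
        apply sq_le_sq.1
        nlinarith
      have h2 : b (u' - v) ≤ b (u - v) := by
        apply b_anti
        apply sq_le_sq.1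
        nlinarith
      nlinarith
    · have h1 : phis R v ≤ phis R (u + u' - v) := by
        apply phis_anti hR
        apply sq_le_sq.1
        nlinarith
      have h2 : b (u - v) ≤ b (u' - v) := by
        apply b_anti
        apply sq_le_sq.1
        nlinarith
      nlinarith
  rw [integral_add i2 i4, integral_add i1 i3, ← e1, ← e2] at key
  change phi R u' + phi R u' ≤ phi R u + phi R u at key
  linarith

/-! ### averages -/

lemma Av_eq (F : ℝ → ℝ) {t r : ℝ} (ht : 0 < t) (x : ℝ) :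
    (2 * r)⁻¹ * ∫ v in (-r)..r, F (x - t * v) = Av F (t * r) x := by
  unfold Av
  rw [intervalIntegral.integral_comp_sub_mul (fun y => F y) ht.ne']
  rw [show x - t * -r = x + t * r by ring, smul_eq_mul, ← mul_assoc, ← mul_inv]
  ring_nf

lemma Av_abs_le {F : ℝ → ℝ} {M : ℝ} (hM : ∀ y, |F y| ≤ M) {u : ℝ} (hu : 0 < u) (x : ℝ) :
    |Av F u x| ≤ M := by
  unfold Av
  have h := intervalIntegral.norm_integral_le_of_norm_le_const (a := x - u) (b := x + u) (f := F)
    (C := M) (fun y _ => hM y)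
  rw [abs_mul, abs_of_pos (by positivity : 0 < (2 * u)⁻¹)]
  rw [show x + u - (x - u) = 2 * u by ring, abs_of_pos (by linarith : 0 < 2 * u),
    Real.norm_eq_abs] at h
  rw [inv_mul_le_iff₀ (by linarith)]
  linarith

lemma phis_hasSum_Av (hR : ∀ j, 1 ≤ R j) {F : ℝ → ℝ} {M : ℝ} (hm : Measurable F)
    (hM : ∀ y, |F y| ≤ M) {t : ℝ} (ht : 0 < t) (x : ℝ) :
    HasSum (fun j => p j * Av F (t * R j) x) (∫ v, phis R v * F (x - t * v)) := by
  have h := phis_hasSum_integral hR (h := fun v => F (x - t * v)) (M := M) (by fun_prop)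
    (fun v => hM _)
  simp only [Av_eq F ht] at h
  exact h

lemma Av_summable (hR : ∀ j, 1 ≤ R j) {F : ℝ → ℝ} {M : ℝ} (hm : Measurable F)
    (hM : ∀ y, |F y| ≤ M) {t : ℝ} (ht : 0 < t) (x : ℝ) :
    Summable (fun j => p j * Av F (t * R j) x) :=
  (phis_hasSum_Av hR hm hM ht x).summable

/-! ### the convolution with the smooth kernel -/

lemma joint_integrable (hR : ∀ j, 1 ≤ R j) {F : ℝ → ℝ} {M : ℝ} (hm : Measurable F)
    (hM : ∀ y, |F y| ≤ M) (t x : ℝ) :
    Integrable (fun q : ℝ × ℝ => b q.2 * phis R (q.1 - q.2) * F (x - t * q.1))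
      (volume.prod volume) := by
  have h := b_integrable.convolution_integrand (ContinuousLinearMap.mul ℝ ℝ) (phis_integrable hR)
  refine Integrable.mul_bdd (c := M) h ?_ (Eventually.of_forall fun q => hM _)
  have : Measurable (fun q : ℝ × ℝ => F (x - t * q.1)) := by fun_prop
  exact this.aestronglyMeasurable

lemma conv_swap (hR : ∀ j, 1 ≤ R j) {F : ℝ → ℝ} {M : ℝ} (hm : Measurable F)
    (hM : ∀ y, |F y| ≤ M) (t x : ℝ) :
    ∫ u, phi R u * F (x - t * u) = ∫ s, b s * ∫ v, phis R v * F ((x - t * s) - t * v) := by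
  have h := joint_integrable hR hm hM t x
  have e1 : ∀ u, phi R u * F (x - t * u) =
      ∫ s, b s * phis R (u - s) * F (x - t * u) := by
    intro u
    rw [integral_mul_const]
    congr 1
    unfold phi
    rw [← integral_sub_left_eq_self (fun v => phis R v * b (u - v)) volume u]
    congr 1
    funext s
    rw [show u - (u - s) = s by ring, mul_comm]
  simp only [e1]
  rw [integral_integral_swap (f := fun u s => b s * phis R (u - s) * F (x - t * u)) h]
  congr 1
  funext s
  rw [← integral_const_mul, ← integral_sub_right_eq_self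
    (fun v => b s * (phis R v * F ((x - t * s) - t * v))) s]
  congr 1
  funext u
  rw [show x - t * s - t * (u - s) = x - t * u by ring, mul_assoc]

lemma outer_integrable (hR : ∀ j, 1 ≤ R j) {F : ℝ → ℝ} {M : ℝ} (hm : Measurable F)
    (hM : ∀ y, |F y| ≤ M) (t x : ℝ) :
    Integrable (fun s => b s * ∫ v, phis R v * F ((x - t * s) - t * v)) := by
  have h := (joint_integrable hR hm hM t x).integral_prod_right
  refine h.congr (Eventually.of_forall fun s => ?_)
  dsimp only
  rw [← integral_const_mul, ← integral_sub_right_eq_self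
    (fun v => b s * (phis R v * F ((x - t * s) - t * v))) s]
  congr 1
  funext u
  rw [show x - t * s - t * (u - s) = x - t * u by ring, mul_assoc]

lemma conv_le (hR : ∀ j, 1 ≤ R j) {F : ℝ → ℝ} {M : ℝ} (hm : Measurable F)
    (hM : ∀ y, |F y| ≤ M) {t x c : ℝ} (ht : 0 < t)
    (h : ∀ x', |x' - x| ≤ t → ∑' j, p j * Av F (t * R j) x' ≤ c) :
    ∫ u, phi R u * F (x - t * u) ≤ c := by
  rw [conv_swap hR hm hM]
  have hc : ∫ s, b s * c = c := by rw [integral_mul_const, b_integral, one_mul]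
  rw [← hc]
  refine integral_mono (outer_integrable hR hm hM t x) (b_integrable.mul_const c) fun s => ?_
  dsimp only
  by_cases hs : 1 ≤ |s|
  · rw [b_zero hs, zero_mul, zero_mul]
  · push Not at hs
    rw [← (phis_hasSum_Av hR hm hM ht (x - t * s)).tsum_eq]
    refine mul_le_mul_of_nonneg_left (h _ ?_) (b_nonneg s)
    rw [show x - t * s - x = -(t * s) by ring, abs_neg, abs_mul, abs_of_pos ht]
    nlinarith

lemma le_conv (hR : ∀ j, 1 ≤ R j) {F : ℝ → ℝ} {M : ℝ} (hm : Measurable F)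
    (hM : ∀ y, |F y| ≤ M) {t x c : ℝ} (ht : 0 < t)
    (h : ∀ x', |x' - x| ≤ t → c ≤ ∑' j, p j * Av F (t * R j) x') :
    c ≤ ∫ u, phi R u * F (x - t * u) := by
  rw [conv_swap hR hm hM]
  have hc : ∫ s, b s * c = c := by rw [integral_mul_const, b_integral, one_mul]
  rw [← hc]
  refine integral_mono (b_integrable.mul_const c) (outer_integrable hR hm hM t x) fun s => ?_
  dsimp only
  by_cases hs : 1 ≤ |s|
  · rw [b_zero hs, zero_mul, zero_mul]
  · push Not at hs
    rw [← (phis_hasSum_Av hR hm hM ht (x - t * s)).tsum_eq]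
    refine mul_le_mul_of_nonneg_left (h _ ?_) (b_nonneg s)
    rw [show x - t * s - x = -(t * s) by ring, abs_neg, abs_mul, abs_of_pos ht]
    nlinarith

end

/-! ### the maximal operator and variation -/

lemma conv_eq (g f : ℝ → ℝ) (x : ℝ) {t : ℝ} (ht : 0 < t) :
    ∫ y, t⁻¹ * g (y / t) * |f (x - y)| = ∫ u, g u * |f (x - t * u)| := by
  have e := Measure.integral_comp_div (fun u => g u * |f (x - t * u)|) t
  have e2 : ∀ y, t⁻¹ * g (y / t) * |f (x - y)| = t⁻¹ * (g (y / t) * |f (x - t * (y / t))|) := by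
    intro y
    rw [mul_div_cancel₀ y ht.ne']
    ring
  simp only [e2]
  rw [integral_const_mul, e, abs_of_pos ht, smul_eq_mul]
  field_simp

lemma eVar_add_le (f g : ℝ → ℝ) :
    eVariationOn (fun x => f x + g x) univ ≤ eVariationOn f univ + eVariationOn g univ := by
  refine iSup_le fun q => ?_
  obtain ⟨n, u, hu, us⟩ := q
  calc ∑ i ∈ Finset.range n, edist (f (u (i + 1)) + g (u (i + 1))) (f (u i) + g (u i))
      ≤ ∑ i ∈ Finset.range n, (edist (f (u (i + 1))) (f (u i)) + edist (g (u (i + 1))) (g (u i))) :=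
        Finset.sum_le_sum fun i _ => edist_add_add_le _ _ _ _
    _ = ∑ i ∈ Finset.range n, edist (f (u (i + 1))) (f (u i)) +
        ∑ i ∈ Finset.range n, edist (g (u (i + 1))) (g (u i)) := Finset.sum_add_distrib
    _ ≤ _ := add_le_add (eVariationOn.sum_le hu us) (eVariationOn.sum_le hu us)

lemma eVar_sum_le {ι : Type*} (T : Finset ι) (f : ι → ℝ → ℝ) (c : ℝ≥0∞)
    (h : ∀ i ∈ T, eVariationOn (f i) univ ≤ c) :
    eVariationOn (fun x => ∑ i ∈ T, f i x) univ ≤ T.card * c := by
  classical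
  induction T using Finset.induction_on with
  | empty =>
    simp only [Finset.sum_empty, Finset.card_empty, Nat.cast_zero, zero_mul, nonpos_iff_eq_zero]
    exact eVariationOn.constant_on (by
      rintro _ ⟨x, _, rfl⟩ _ ⟨y, _, rfl⟩
      rfl)
  | insert a s ha ih =>
    simp only [Finset.sum_insert ha]
    rw [Finset.card_insert_of_notMem ha]
    push_cast
    refine (eVar_add_le (f a) (fun x => ∑ i ∈ s, f i x)).trans ?_
    have h1 := h a (Finset.mem_insert_self a s)
    have h2 := ih (fun i hi => h i (Finset.mem_insert_of_mem hi))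
    calc eVariationOn (f a) univ + eVariationOn (fun x => ∑ i ∈ s, f i x) univ
        ≤ c + s.card * c := add_le_add h1 h2
      _ = (s.card + 1) * c := by ring

lemma eVar_mono_le (f : ℝ → ℝ) (hf : Monotone f) (h0 : ∀ x, 0 ≤ f x) (h1 : ∀ x, f x ≤ 1) :
    eVariationOn f univ ≤ 1 := by
  rw [eVariationOn.eq_biSup_inter_Icc]
  refine iSup₂_le fun q hq => ?_
  refine (MonotoneOn.eVariationOn_eq (hf.monotoneOn univ) (mem_univ q.1) (mem_univ q.2)).le.trans ?_
  rw [← ENNReal.ofReal_one]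
  exact ENNReal.ofReal_le_ofReal (by linarith [h0 q.1, h1 q.2])

lemma eVar_neg (f : ℝ → ℝ) : eVariationOn (fun x => - f x) univ = eVariationOn f univ := by
  unfold eVariationOn
  simp only [edist_neg_neg]


section
variable {R : ℕ → ℝ}

lemma phi_mul_integrable (hR : ∀ j, 1 ≤ R j) {h : ℝ → ℝ} {M : ℝ} (hm : Measurable h)
    (hM : ∀ y, |h y| ≤ M) : Integrable (fun u => phi R u * h u) :=
  (phi_integrable hR).mul_bdd (c := M) hm.aestronglyMeasurable (Eventually.of_forall hM)

/-- the convolution of a nonnegative function `c₀ + F` -/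
lemma conv_const_add (hR : ∀ j, 1 ≤ R j) {F : ℝ → ℝ} {M c₀ : ℝ} (hm : Measurable F)
    (hM : ∀ y, |F y| ≤ M) (hc : M ≤ c₀) {t : ℝ} (ht : 0 < t) (x : ℝ) :
    ∫ y, t⁻¹ * phi R (y / t) * |c₀ + F (x - y)| = c₀ + ∫ u, phi R u * F (x - t * u) := by
  rw [conv_eq (phi R) (fun y => c₀ + F y) x ht]
  have e : ∀ u, phi R u * |c₀ + F (x - t * u)| = phi R u * c₀ + phi R u * F (x - t * u) := by
    intro u
    rw [abs_of_nonneg]
    · ring
    · have := (abs_le.1 (hM (x - t * u))).1
      linarith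
  simp only [e]
  rw [integral_add ((phi_integrable hR).mul_const c₀)
    (phi_mul_integrable hR (M := M) (by fun_prop) (fun u => hM _)), integral_mul_const,
    phi_integral hR, one_mul]

lemma maxConv_le (hR : ∀ j, 1 ≤ R j) {F : ℝ → ℝ} {M c₀ : ℝ} (hm : Measurable F)
    (hM : ∀ y, |F y| ≤ M) (hc : M ≤ c₀) {x c : ℝ}
    (h : ∀ t, 0 < t → ∀ x', |x' - x| ≤ t → ∑' j, p j * Av F (t * R j) x' ≤ c) :
    maxConv (phi R) (fun y => c₀ + F y) x ≤ c₀ + c := by
  unfold maxConv
  have : Nonempty (Set.Ioi (0 : ℝ)) := ⟨⟨1, by norm_num⟩⟩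
  refine ciSup_le fun t => ?_
  rw [conv_const_add hR hm hM hc t.2]
  have := conv_le hR hm hM t.2 (h t t.2)
  linarith

lemma le_maxConv (hR : ∀ j, 1 ≤ R j) {F : ℝ → ℝ} {M c₀ : ℝ} (hm : Measurable F)
    (hM : ∀ y, |F y| ≤ M) (hc : M ≤ c₀) {x c t : ℝ} (ht : 0 < t)
    (h : ∀ x', |x' - x| ≤ t → c ≤ ∑' j, p j * Av F (t * R j) x') :
    c₀ + c ≤ maxConv (phi R) (fun y => c₀ + F y) x := by
  have hb : BddAbove (Set.range fun t : Set.Ioi (0 : ℝ) =>
      ∫ y, (t : ℝ)⁻¹ * phi R (y / t) * |(fun y => c₀ + F y) (x - y)|) := by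
    refine ⟨c₀ + M, ?_⟩
    rintro _ ⟨t, rfl⟩
    dsimp only
    rw [conv_const_add hR hm hM hc t.2]
    have h2 : ∫ u, phi R u * F (x - t * u) ≤ M := by
      have e : ∫ u, phi R u * M = M := by rw [integral_mul_const, phi_integral hR, one_mul]
      rw [← e]
      refine integral_mono (phi_mul_integrable hR (M := M) (by fun_prop) (fun u => hM _))
        ((phi_integrable hR).mul_const M) fun u => ?_
      exact mul_le_mul_of_nonneg_left (abs_le.1 (hM _)).2 (phi_nonneg hR u)
    linarith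
  have h1 := le_ciSup hb ⟨t, ht⟩
  refine le_trans ?_ h1
  dsimp only
  rw [conv_const_add hR hm hM hc ht]
  have := le_conv hR hm hM ht h
  linarith

end

/-! ### auxiliary lemmas -/

lemma p_succ (j : ℕ) : p (j + 1) = p j / 4 := by
  unfold p
  rw [pow_succ 4 (j + 1)]
  field_simp

/-- the tail of the weights, as a series over all indices -/
lemma p_tail_ite (j : ℕ) : HasSum (fun i => if i ≤ j then 0 else p i) (p j / 3) := by
  have ht := p_tail (j + 1)
  have e := (hasSum_nat_add_iff (f := fun i => if i ≤ j then (0 : ℝ) else p i) (j + 1)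
      (g := (1 / 4 : ℝ) ^ (j + 1))).1 (by
        have e3 : (fun i => if i + (j + 1) ≤ j then (0 : ℝ) else p (i + (j + 1))) =
            fun i => p (i + (j + 1)) := by
          funext i
          rw [if_neg (by omega)]
        rw [e3]
        exact ht)
  have e4 : ∑ i ∈ Finset.range (j + 1), (if i ≤ j then (0 : ℝ) else p i) = 0 :=
    Finset.sum_eq_zero fun i hi => if_pos (by have := Finset.mem_range.1 hi; omega)
  rw [e4, add_zero] at e
  have e5 : (1 / 4 : ℝ) ^ (j + 1) = p j / 3 := by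
    unfold p
    rw [one_div, inv_pow]
    field_simp
  rw [← e5]
  exact e

lemma Av_summable' {F : ℝ → ℝ} {M : ℝ} (hb : ∀ y, |F y| ≤ M) {R : ℕ → ℝ} (hR : ∀ j, 1 ≤ R j)
    {t : ℝ} (ht : 0 < t) (x : ℝ) : Summable fun j => p j * Av F (t * R j) x := by
  refine Summable.of_norm_bounded (g := fun j => p j * M) (p_hasSum.summable.mul_right M) fun j => ?_
  rw [Real.norm_eq_abs, abs_mul, abs_of_pos (p_pos j)]
  exact mul_le_mul_of_nonneg_left (Av_abs_le hb (mul_pos ht (by linarith [hR j])) x) (p_pos j).le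

lemma eVar_const (c : ℝ) : eVariationOn (fun _ : ℝ => c) univ = 0 :=
  eVariationOn.constant_on (by
      rintro _ ⟨x, _, rfl⟩ _ ⟨y, _, rfl⟩
      rfl)

lemma eVar_mul_le (c : ℝ) (f : ℝ → ℝ) :
    eVariationOn (fun x => c * f x) univ ≤ ENNReal.ofReal |c| * eVariationOn f univ := by
  have h : LipschitzWith ⟨|c|, abs_nonneg c⟩ (fun x : ℝ => c * x) := by
    refine LipschitzWith.of_dist_le_mul fun x y => ?_
    rw [Real.dist_eq, Real.dist_eq, ← mul_sub, abs_mul]
    rfl
  have h2 := (h.lipschitzOnWith (s := univ)).comp_eVariationOn_le (g := f) (s := univ)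
    (fun x _ => mem_univ _)
  refine h2.trans (le_of_eq ?_)
  congr 1
  rw [ENNReal.ofReal, Real.toNNReal_of_nonneg (abs_nonneg c)]
  rfl

/-! ### steps and tents -/

/-- unit step at `c` -/
noncomputable def hv (c x : ℝ) : ℝ := if c < x then 1 else 0

lemma hv_measurable (c : ℝ) : Measurable (hv c) := by
  unfold hv
  exact Measurable.ite measurableSet_Ioi measurable_const measurable_const

lemma hv_eVar (c : ℝ) : eVariationOn (hv c) univ ≤ 1 := by
  refine eVar_mono_le _ ?_ ?_ ?_
  · intro x y hxy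
    unfold hv
    split_ifs with h1 h2
    · exact le_rfl
    · exact absurd (lt_of_lt_of_le h1 hxy) h2
    · exact zero_le_one
    · exact le_rfl
  · intro x; unfold hv; split_ifs <;> norm_num
  · intro x; unfold hv; split_ifs <;> norm_num

lemma hv_intervalIntegrable (c a b : ℝ) : IntervalIntegrable (hv c) volume a b := by
  refine (intervalIntegrable_const (c := (1 : ℝ)) (μ := volume) (a := a) (b := b)).mono_fun
    (hv_measurable c).aestronglyMeasurable (Eventually.of_forall fun x => ?_)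
  unfold hv
  dsimp only
  split_ifs <;> norm_num

lemma hv_integral (c : ℝ) {a b : ℝ} (h : a ≤ b) :
    ∫ x in a..b, hv c x = max (b - c) 0 - max (a - c) 0 := by
  rw [intervalIntegral.integral_of_le h]
  have e : hv c = (Ioi c).indicator (fun _ => (1 : ℝ)) := by
    funext x
    unfold hv
    by_cases hx : c < x
    · rw [if_pos hx, indicator_of_mem (show x ∈ Ioi c from hx)]
    · rw [if_neg hx, indicator_of_notMem (show x ∉ Ioi c from hx)]
  rw [e, setIntegral_indicator measurableSet_Ioi, Ioc_inter_Ioi]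
  simp only [integral_const, smul_eq_mul, mul_one]
  rw [measureReal_restrict_apply_univ, Real.volume_real_Ioc]
  rcases le_total a c with hac | hac
  · rw [max_eq_right hac, max_eq_right (sub_nonpos.2 hac), sub_zero]
  · rw [max_eq_left hac, max_eq_left (sub_nonneg.2 h), max_eq_left (sub_nonneg.2 hac),
      max_eq_left (sub_nonneg.2 (hac.trans h))]
    ring

/-- the tent `max (a - |s|) 0` -/
noncomputable def tent (a s : ℝ) : ℝ := max (a - |s|) 0

lemma tent_nonneg (a s : ℝ) : 0 ≤ tent a s := le_max_right _ _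

lemma tent_ge (a s : ℝ) : a - |s| ≤ tent a s := le_max_left _ _

lemma tent_zero {a s : ℝ} (h : a ≤ |s|) : tent a s = 0 := max_eq_right (sub_nonpos.2 h)

lemma tent_le {a : ℝ} (ha : 0 ≤ a) (s : ℝ) : tent a s ≤ a :=
  max_le (by linarith [abs_nonneg s]) ha

lemma tent_eq {a : ℝ} (ha : 0 ≤ a) (s : ℝ) :
    tent a s = max (s + a) 0 - 2 * max s 0 + max (s - a) 0 := by
  unfold tent
  rcases le_total s 0 with hs | hs
  · rw [abs_of_nonpos hs, max_eq_right hs, max_eq_right (by linarith : s - a ≤ 0), sub_neg_eq_add,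
      add_comm a s]
    ring
  · rw [abs_of_nonneg hs, max_eq_left hs, max_eq_left (by linarith : 0 ≤ s + a)]
    rcases le_total s a with h | h
    · rw [max_eq_left (by linarith), max_eq_right (by linarith : s - a ≤ 0)]
      ring
    · rw [max_eq_right (by linarith), max_eq_left (by linarith : 0 ≤ s - a)]
      ring

/-- minus the derivative of the tent of half width `a` with centre `c` -/
noncomputable def gs (a c x : ℝ) : ℝ := -1 * hv (c - a) x + 2 * hv c x + -1 * hv (c + a) x

lemma gs_measurable (a c : ℝ) : Measurable (gs a c) := by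
  unfold gs
  exact (((hv_measurable _).const_mul _).add ((hv_measurable _).const_mul _)).add
    ((hv_measurable _).const_mul _)

lemma gs_intervalIntegrable (a c u v : ℝ) : IntervalIntegrable (gs a c) volume u v := by
  unfold gs
  exact (((hv_intervalIntegrable _ _ _).const_mul _).add
    ((hv_intervalIntegrable _ _ _).const_mul _)).add ((hv_intervalIntegrable _ _ _).const_mul _)

lemma sum_gs_intervalIntegrable (n : ℕ) (a c : ℕ → ℝ) (u v : ℝ) :
    IntervalIntegrable (fun x => ∑ i ∈ Finset.range n, gs (a i) (c i) x) volume u v := by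
  have h := IntervalIntegrable.sum (Finset.range n) (f := fun i => gs (a i) (c i)) (μ := volume)
    (a := u) (b := v) fun i _ => gs_intervalIntegrable _ _ _ _
  have e : (fun x => ∑ i ∈ Finset.range n, gs (a i) (c i) x) =
      ∑ i ∈ Finset.range n, gs (a i) (c i) := by
    funext x
    rw [Finset.sum_apply]
  rw [e]
  exact h

lemma gs_integral {a : ℝ} (ha : 0 ≤ a) (c : ℝ) {u v : ℝ} (h : u ≤ v) :
    ∫ x in u..v, gs a c x = tent a (u - c) - tent a (v - c) := by
  unfold gs
  rw [intervalIntegral.integral_add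
    (((hv_intervalIntegrable _ _ _).const_mul _).add ((hv_intervalIntegrable _ _ _).const_mul _))
    ((hv_intervalIntegrable _ _ _).const_mul _),
    intervalIntegral.integral_add ((hv_intervalIntegrable _ _ _).const_mul _)
      ((hv_intervalIntegrable _ _ _).const_mul _),
    intervalIntegral.integral_const_mul, intervalIntegral.integral_const_mul,
    intervalIntegral.integral_const_mul, hv_integral _ h, hv_integral _ h, hv_integral _ h,
    tent_eq ha, tent_eq ha]
  rw [show v - (c - a) = v - c + a by ring, show u - (c - a) = u - c + a by ring,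
    show v - (c + a) = v - c - a by ring, show u - (c + a) = u - c - a by ring]
  ring

lemma gs_abs_le (a c x : ℝ) : |gs a c x| ≤ 4 := by
  have h : ∀ d, 0 ≤ hv d x ∧ hv d x ≤ 1 := by
    intro d
    unfold hv
    split_ifs <;> norm_num
  have h1 := h (c - a)
  have h2 := h c
  have h3 := h (c + a)
  unfold gs
  rw [abs_le]
  constructor <;> linarith [h1.1, h1.2, h2.1, h2.2, h3.1, h3.2]

lemma gs_eVar (a c : ℝ) : eVariationOn (gs a c) univ ≤ 4 := by
  unfold gs
  refine (eVar_add_le _ _).trans ?_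
  have h1 := eVar_add_le (fun x => -1 * hv (c - a) x) (fun x => 2 * hv c x)
  have hm : ∀ (m d : ℝ), eVariationOn (fun x => m * hv d x) univ ≤ ENNReal.ofReal |m| := by
    intro m d
    refine (eVar_mul_le m (hv d)).trans ?_
    calc ENNReal.ofReal |m| * eVariationOn (hv d) univ ≤ ENNReal.ofReal |m| * 1 := by
          gcongr
          exact hv_eVar d
      _ = _ := mul_one _
  have h2 := hm (-1) (c - a)
  have h3 := hm 2 c
  have h4 := hm (-1) (c + a)
  rw [abs_neg, abs_one, ENNReal.ofReal_one] at h2 h4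
  rw [abs_of_pos (by norm_num : (0 : ℝ) < 2), ENNReal.ofReal_ofNat] at h3
  calc _ ≤ (1 + 2 : ℝ≥0∞) + 1 := add_le_add (h1.trans (add_le_add h2 h3)) h4
    _ = 4 := by norm_num

/-! ### the function -/

/-- the small tents -/
noncomputable def tau (k : ℕ) (v : ℝ) : ℝ := ∑ i ∈ Finset.range (16 * k), tent 1 (v - 24 * k * i)

/-- the barrier -/
noncomputable def N1 (B Q U v : ℝ) : ℝ := B * tent (U - Q) (v - U)

/-- the comb -/
noncomputable def N2 (k : ℕ) (R v : ℝ) : ℝ :=
  16 * ∑ l ∈ Finset.range k, tent (3 / 2 * R) (v - (3 * (l + 1) + 3 / 2) * R)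

noncomputable def Psi (k : ℕ) (B Q U R v : ℝ) : ℝ := tau k v + N1 B Q U v + N2 k R v

noncomputable def F (k : ℕ) (B Q U R v : ℝ) : ℝ :=
  ∑ i ∈ Finset.range (16 * k), gs 1 (24 * k * i) v + B * gs (U - Q) U v +
    16 * ∑ l ∈ Finset.range k, gs (3 / 2 * R) ((3 * (l + 1) + 3 / 2) * R) v

lemma F_measurable (k : ℕ) (B Q U R : ℝ) : Measurable (F k B Q U R) := by
  unfold F
  refine ((Finset.measurable_fun_sum _ fun i _ => gs_measurable _ _).add
    ((gs_measurable _ _).const_mul _)).add ((Finset.measurable_fun_sum _ fun l _ => gs_measurable _ _).const_mul _)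

lemma F_integral (k : ℕ) {B Q U R : ℝ} (hQU : Q ≤ U) (hR : 0 ≤ R) {u v : ℝ}
    (h : u ≤ v) : ∫ x in u..v, F k B Q U R x = Psi k B Q U R u - Psi k B Q U R v := by
  unfold F Psi tau N1 N2
  have i1 : IntervalIntegrable (fun x => ∑ i ∈ Finset.range (16 * k), gs 1 (24 * k * i) x) volume u v :=
    sum_gs_intervalIntegrable (16 * k) (fun _ => 1) (fun i => 24 * k * i) u v
  have i2 : IntervalIntegrable (fun x => B * gs (U - Q) U x) volume u v :=
    (gs_intervalIntegrable _ _ _ _).const_mul _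
  have i3 : IntervalIntegrable (fun x => ∑ l ∈ Finset.range k,
      gs (3 / 2 * R) ((3 * (l + 1) + 3 / 2) * R) x) volume u v :=
    sum_gs_intervalIntegrable k (fun _ => 3 / 2 * R) (fun l => (3 * (l + 1) + 3 / 2) * R) u v
  rw [intervalIntegral.integral_add (i1.add i2) (i3.const_mul _),
    intervalIntegral.integral_add i1 i2, intervalIntegral.integral_const_mul,
    intervalIntegral.integral_const_mul, intervalIntegral.integral_finsetSum
      (fun i _ => gs_intervalIntegrable _ _ _ _), intervalIntegral.integral_finsetSum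
      (fun i _ => gs_intervalIntegrable _ _ _ _), gs_integral (sub_nonneg.2 hQU) _ h]
  simp only [gs_integral zero_le_one _ h, gs_integral (by positivity : 0 ≤ 3 / 2 * R) _ h,
    Finset.sum_sub_distrib]
  ring

lemma Av_F (k : ℕ) {B Q U R : ℝ} (hQU : Q ≤ U) (hR : 0 ≤ R) {u : ℝ} (hu : 0 < u) (x : ℝ) :
    Av (F k B Q U R) u x = (Psi k B Q U R (x - u) - Psi k B Q U R (x + u)) / (2 * u) := by
  unfold Av
  rw [F_integral k hQU hR (by linarith)]
  ring

lemma F_abs_le (k : ℕ) {B Q U R : ℝ} (hB : 0 ≤ B) (x : ℝ) :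
    |F k B Q U R x| ≤ 128 * k + 4 * B := by
  unfold F
  have h1 : |∑ i ∈ Finset.range (16 * k), gs 1 (24 * k * i) x| ≤ 64 * k := by
    refine (Finset.abs_sum_le_sum_abs _ _).trans ?_
    refine (Finset.sum_le_sum fun i _ => gs_abs_le _ _ _).trans ?_
    rw [Finset.sum_const, Finset.card_range, nsmul_eq_mul]
    push_cast
    linarith
  have h2 : |B * gs (U - Q) U x| ≤ 4 * B := by
    rw [abs_mul, abs_of_nonneg hB]
    nlinarith [gs_abs_le (U - Q) U x]
  have h3 : |16 * ∑ l ∈ Finset.range k, gs (3 / 2 * R) ((3 * (l + 1) + 3 / 2) * R) x| ≤ 64 * k := by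
    rw [abs_mul, abs_of_pos (by norm_num : (0 : ℝ) < 16)]
    have h4 : |∑ l ∈ Finset.range k, gs (3 / 2 * R) ((3 * (l + 1) + 3 / 2) * R) x| ≤ 4 * k := by
      refine (Finset.abs_sum_le_sum_abs _ _).trans ?_
      refine (Finset.sum_le_sum fun i _ => gs_abs_le _ _ _).trans ?_
      rw [Finset.sum_const, Finset.card_range, nsmul_eq_mul]
      linarith
    linarith
  refine (abs_add_le _ _).trans ?_
  have := abs_add_le (∑ i ∈ Finset.range (16 * k), gs 1 (24 * k * i) x) (B * gs (U - Q) U x)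
  linarith

lemma F_eVar (k : ℕ) {B Q U R : ℝ} (hB : 0 ≤ B) (hBk : B ≤ k) :
    eVariationOn (F k B Q U R) univ ≤ ENNReal.ofReal (132 * k) := by
  unfold F
  refine (eVar_add_le _ _).trans ?_
  have h0 := eVar_add_le (fun x => ∑ i ∈ Finset.range (16 * k), gs 1 (24 * k * i) x)
    (fun x => B * gs (U - Q) U x)
  have h1 := eVar_sum_le (Finset.range (16 * k)) (fun i x => gs 1 (24 * k * i) x) 4
    (fun i _ => gs_eVar _ _)
  have h2 := eVar_mul_le B (gs (U - Q) U)
  have h3 := eVar_mul_le 16 (fun x => ∑ l ∈ Finset.range k, gs (3 / 2 * R) ((3 * (l + 1) + 3 / 2) * R) x)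
  have h4 := eVar_sum_le (Finset.range k) (fun l x => gs (3 / 2 * R) ((3 * ((l : ℕ) + 1) + 3 / 2) * R) x) 4
    (fun i _ => gs_eVar _ _)
  rw [Finset.card_range] at h1 h4
  have e1 : (((16 * k : ℕ) : ℝ≥0∞)) * 4 = ENNReal.ofReal (64 * k) := by
    rw [show (64 * (k : ℝ)) = ((64 * k : ℕ) : ℝ) by push_cast; ring, ENNReal.ofReal_natCast]
    push_cast
    ring
  have e2 : ENNReal.ofReal |B| * 4 ≤ ENNReal.ofReal (4 * k) := by
    rw [abs_of_nonneg hB, ← ENNReal.ofReal_ofNat 4, ← ENNReal.ofReal_mul hB]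
    apply ENNReal.ofReal_le_ofReal
    linarith
  have e4 : ENNReal.ofReal |16| * (((k : ℕ) : ℝ≥0∞) * 4) = ENNReal.ofReal (64 * k) := by
    rw [abs_of_pos (by norm_num : (0 : ℝ) < 16), ENNReal.ofReal_ofNat,
      show (64 * (k : ℝ)) = ((64 * k : ℕ) : ℝ) by push_cast; ring, ENNReal.ofReal_natCast]
    push_cast
    ring
  calc _ ≤ (ENNReal.ofReal (64 * k) + ENNReal.ofReal (4 * k)) + ENNReal.ofReal (64 * k) := by
        refine add_le_add (h0.trans (add_le_add (h1.trans e1.le) (h2.trans ?_))) (h3.trans ?_)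
        · refine le_trans ?_ e2
          gcongr
          exact gs_eVar _ _
        · refine le_trans ?_ e4.le
          gcongr
    _ = ENNReal.ofReal (132 * k) := by
        rw [← ENNReal.ofReal_add (by positivity) (by positivity),
          ← ENNReal.ofReal_add (by positivity) (by positivity)]
        congr 1
        ring

/-! ### bounds for the tents -/

lemma tau_nonneg (k : ℕ) (v : ℝ) : 0 ≤ tau k v := Finset.sum_nonneg fun _ _ => tent_nonneg _ _

lemma tau_zero {k : ℕ} {v : ℝ} (h : ∀ i : ℕ, i < 16 * k → 1 ≤ |v - 24 * k * i|) : tau k v = 0 :=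
  Finset.sum_eq_zero fun i hi => tent_zero (h i (Finset.mem_range.1 hi))

lemma tau_ge {k i : ℕ} (hi : i < 16 * k) (v : ℝ) : 1 - |v - 24 * k * i| ≤ tau k v :=
  (tent_ge _ _).trans (Finset.single_le_sum (f := fun i : ℕ => tent 1 (v - 24 * k * i))
    (fun _ _ => tent_nonneg _ _) (Finset.mem_range.2 hi))

lemma tau_le_one {k : ℕ} (hk : 1 ≤ k) (v : ℝ) : tau k v ≤ 1 := by
  have hk' : (1 : ℝ) ≤ k := by exact_mod_cast hk
  by_cases h : ∀ i : ℕ, i < 16 * k → 1 ≤ |v - 24 * k * i|
  · rw [tau_zero h]; exact zero_le_one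
  · push Not at h
    obtain ⟨i, hi, hiv⟩ := h
    unfold tau
    rw [Finset.sum_eq_single_of_mem i (Finset.mem_range.2 hi)]
    · exact tent_le zero_le_one _
    · intro i' _ hne
      apply tent_zero
      by_contra hlt
      push Not at hlt
      apply hne
      rw [abs_lt] at hiv hlt
      rcases lt_trichotomy i i' with h1 | h1 | h1
      · exfalso
        have h2 : (i : ℝ) + 1 ≤ i' := by exact_mod_cast h1
        nlinarith [hiv.1, hiv.2, hlt.1, hlt.2]
      · exact h1.symm
      · exfalso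
        have h2 : (i' : ℝ) + 1 ≤ i := by exact_mod_cast h1
        nlinarith [hiv.1, hiv.2, hlt.1, hlt.2]

lemma N1_nonneg {B : ℝ} (hB : 0 ≤ B) (Q U v : ℝ) : 0 ≤ N1 B Q U v := mul_nonneg hB (tent_nonneg _ _)

lemma N1_zero_left (B : ℝ) {Q U v : ℝ} (h : v ≤ Q) : N1 B Q U v = 0 := by
  unfold N1
  rw [tent_zero, mul_zero]
  have := neg_abs_le (v - U)
  linarith

lemma N1_zero_right (B : ℝ) {Q U v : ℝ} (h : 2 * U - Q ≤ v) : N1 B Q U v = 0 := by
  unfold N1
  rw [tent_zero, mul_zero]
  have := le_abs_self (v - U)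
  linarith

lemma N1_ge {B Q U v : ℝ} (hB : 0 ≤ B) (h : v ≤ U) : B * (v - Q) ≤ N1 B Q U v := by
  unfold N1
  apply mul_le_mul_of_nonneg_left _ hB
  refine le_trans (le_of_eq ?_) (tent_ge _ _)
  rw [abs_of_nonpos (by linarith)]
  ring

lemma N2_nonneg (k : ℕ) (R v : ℝ) : 0 ≤ N2 k R v :=
  mul_nonneg (by norm_num) (Finset.sum_nonneg fun _ _ => tent_nonneg _ _)

lemma N2_zero_left (k : ℕ) {R v : ℝ} (hR : 0 ≤ R) (h : v ≤ 3 * R) : N2 k R v = 0 := by
  unfold N2
  rw [Finset.sum_eq_zero, mul_zero]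
  intro l _
  apply tent_zero
  have := neg_abs_le (v - (3 * (l + 1) + 3 / 2) * R)
  have hl : (0 : ℝ) ≤ l * R := by positivity
  nlinarith

lemma N2_zero_right (k : ℕ) {R v : ℝ} (hR : 0 ≤ R) (h : 3 * (k + 1) * R ≤ v) : N2 k R v = 0 := by
  unfold N2
  rw [Finset.sum_eq_zero, mul_zero]
  intro l hl
  apply tent_zero
  have hl2 : (l : ℝ) + 1 ≤ k := by exact_mod_cast Finset.mem_range.1 hl
  have := le_abs_self (v - (3 * (l + 1) + 3 / 2) * R)
  have h3 : ((l : ℝ) + 1) * R ≤ k * R := by gcongr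
  nlinarith

lemma N2_ge {k l : ℕ} (hl : l < k) (R v : ℝ) :
    16 * (3 / 2 * R - |v - (3 * (l + 1) + 3 / 2) * R|) ≤ N2 k R v := by
  unfold N2
  apply mul_le_mul_of_nonneg_left _ (by norm_num)
  exact (tent_ge _ _).trans (Finset.single_le_sum
    (f := fun l : ℕ => tent (3 / 2 * R) (v - (3 * (l + 1) + 3 / 2) * R))
    (fun _ _ => tent_nonneg _ _) (Finset.mem_range.2 hl))

lemma N2_le {k l : ℕ} (hl : l < k) {R y : ℝ} (hR : 0 ≤ R) (h0 : 0 ≤ y) (h1 : y ≤ 3 * R) :
    N2 k R (y + 3 * (l + 1) * R) ≤ 16 * y := by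
  unfold N2
  apply mul_le_mul_of_nonneg_left _ (by norm_num)
  rw [Finset.sum_eq_single_of_mem l (Finset.mem_range.2 hl)]
  · unfold tent
    apply max_le _ h0
    have := neg_abs_le (y + 3 * (l + 1) * R - (3 * (l + 1) + 3 / 2) * R)
    nlinarith
  · intro l' _ hne
    apply tent_zero
    rcases lt_or_gt_of_ne hne with h | h
    · have h2 : (l' : ℝ) + 1 ≤ l := by exact_mod_cast h
      have h3 : ((l' : ℝ) + 1) * R ≤ l * R := by gcongr
      have := le_abs_self (y + 3 * (l + 1) * R - (3 * (l' + 1) + 3 / 2) * R)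
      nlinarith
    · have h2 : (l : ℝ) + 1 ≤ l' := by exact_mod_cast h
      have h3 : ((l : ℝ) + 1) * R ≤ l' * R := by gcongr
      have := neg_abs_le (y + 3 * (l + 1) * R - (3 * (l' + 1) + 3 / 2) * R)
      nlinarith

lemma Psi_nonneg (k : ℕ) {B : ℝ} (hB : 0 ≤ B) (Q U R v : ℝ) : 0 ≤ Psi k B Q U R v := by
  unfold Psi
  linarith [tau_nonneg k v, N1_nonneg hB Q U v, N2_nonneg k R v]

/-- conditions on the radii around level `n + 1` -/
structure Hyp (R : ℕ → ℝ) (n k : ℕ) (B Q S : ℝ) : Prop where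
  k_pos : 1 ≤ k
  R_ge : ∀ j, 32 ≤ R j
  R_mono : Monotone R
  hQ : R (n + 1) = Q * R n
  hS : R (n + 2) = S * R (n + 1)
  hB : p (n + 1) * B = 3
  B_ge : 1 ≤ B
  L_le_Q : 384 * (k : ℝ) ^ 2 ≤ Q
  L_le_S : 24 * (384 * (k : ℝ) ^ 2) ≤ S
  U_le_S : 4 * k * B * R (n + 1) ≤ S
  far : (k + 1) * R (n + 2) ≤ R (n + 3)

lemma tau_zero_near {k : ℕ} {y : ℝ} (i : ℕ) (h1 : 24 * (k : ℝ) * (i - 1) + 1 ≤ y)
    (h2 : y ≤ 24 * k * i - 1) : tau k y = 0 := by
  apply tau_zero
  intro i' _
  have hk : (0 : ℝ) ≤ k := Nat.cast_nonneg k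
  rcases lt_or_ge i' i with h | h
  · have h3 : (i' : ℝ) + 1 ≤ i := by exact_mod_cast h
    have h4 : 24 * (k : ℝ) * i' ≤ 24 * k * (i - 1) := by
      apply mul_le_mul_of_nonneg_left _ (by positivity)
      linarith
    refine le_trans ?_ (le_abs_self _)
    linarith
  · have h3 : (i : ℝ) ≤ i' := by exact_mod_cast h
    have h4 : 24 * (k : ℝ) * i ≤ 24 * k * i' := by gcongr
    refine le_trans ?_ (neg_le_abs _)
    linarith

lemma tau_zero_neg {k : ℕ} {y : ℝ} (h2 : y ≤ - 1) : tau k y = 0 := by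
  apply tau_zero
  intro i' _
  have h4 : 0 ≤ 24 * (k : ℝ) * i' := by positivity
  refine le_trans ?_ (neg_le_abs _)
  linarith

variable {R : ℕ → ℝ} {n k : ℕ} {B Q S : ℝ}

lemma Hyp.Q_le_U (h : Hyp R n k B Q S) : 96 * Q ≤ 6 * k * B * R (n + 1) := by
  have hk : (1 : ℝ) ≤ k := by exact_mod_cast h.k_pos
  have hB := h.B_ge
  have hR := h.R_ge n
  have hL := h.L_le_Q
  have hQ0 : 0 ≤ Q := le_trans (by positivity) hL
  have h1 : Q * 16 ≤ R (n + 1) := by rw [h.hQ]; gcongr; linarith
  have h2 : 1 * 1 ≤ (k : ℝ) * B := by gcongr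
  nlinarith

lemma Hyp.L_pos (h : Hyp R n k B Q S) : 384 ≤ 384 * (k : ℝ) ^ 2 := by
  have hk : (1 : ℝ) ≤ k := by exact_mod_cast h.k_pos
  nlinarith

lemma Hyp.Av_le (h : Hyp R n k B Q S) {u x : ℝ} (hu : 0 < u)
    (hx : x - u ≤ 384 * (k : ℝ) ^ 2) :
    Av (F k B Q (6 * k * B * R (n + 1)) S) u x ≤
      (tau k (x - u) - (N1 B Q (6 * k * B * R (n + 1)) (x + u) + N2 k S (x + u))) / (2 * u) := by
  have hL := h.L_pos
  have hLQ := h.L_le_Q
  have hLS := h.L_le_S
  have hS0 : 0 ≤ S := by linarith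
  rw [Av_F k (by linarith [h.Q_le_U]) hS0 hu]
  apply div_le_div_of_nonneg_right _ (by linarith)
  unfold Psi
  rw [N1_zero_left B (hx.trans hLQ), N2_zero_left k hS0 (by linarith)]
  linarith [tau_nonneg k (x + u)]

lemma Hyp.Av_nonpos (h : Hyp R n k B Q S) {u x : ℝ} (hu : 0 < u)
    (hx : x - u ≤ 384 * (k : ℝ) ^ 2) (ht : tau k (x - u) = 0) :
    Av (F k B Q (6 * k * B * R (n + 1)) S) u x ≤ 0 := by
  refine (h.Av_le hu hx).trans ?_
  apply div_nonpos_of_nonpos_of_nonneg _ (by linarith)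
  rw [ht]
  linarith [N1_nonneg (zero_le_one.trans h.B_ge) Q (6 * k * B * R (n + 1)) (x + u), N2_nonneg k S (x + u)]

lemma Hyp.Av_le_inv (h : Hyp R n k B Q S) {u x : ℝ} (hu : 0 < u)
    (hx : x - u ≤ 384 * (k : ℝ) ^ 2) :
    Av (F k B Q (6 * k * B * R (n + 1)) S) u x ≤ 1 / (2 * u) := by
  refine (h.Av_le hu hx).trans ?_
  apply div_le_div_of_nonneg_right _ (by linarith)
  linarith [N1_nonneg (zero_le_one.trans h.B_ge) Q (6 * k * B * R (n + 1)) (x + u),
    N2_nonneg k S (x + u), tau_le_one h.k_pos (x - u)]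

/-- comparison of a series with one or two terms plus a multiple of the weights -/
lemma tsum_le_of (g : ℕ → ℝ) {f : ℕ → ℝ} (hf : Summable f) {c : ℝ} (hg : HasSum g c)
    (h : ∀ j, f j ≤ g j) : ∑' j, f j ≤ c := hasSum_le h hf.hasSum hg

lemma valley (h : Hyp R n k B Q S) {i l : ℕ} (hi : i < 16 * k) (hl : l < k) {t x' : ℝ}
    (ht : 0 < t) (hx : |x' - (24 * k * i + 3 * (l + 1) + 3 / 2)| ≤ t + 1 / 16) :
    ∑' j, p j * Av (F k B Q (6 * k * B * R (n + 1)) S) (t * R j) x' ≤
      p (n + 1) / (18 * (l + 1)) := by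
  have hk : (1 : ℝ) ≤ k := by exact_mod_cast h.k_pos
  have hi' : (i : ℝ) + 1 ≤ 16 * k := by exact_mod_cast hi
  have hl' : (l : ℝ) + 1 ≤ k := by exact_mod_cast hl
  have hl0 : (0 : ℝ) ≤ l := Nat.cast_nonneg l
  have hi0 : (0 : ℝ) ≤ i := Nat.cast_nonneg i
  have hB := h.B_ge
  have hL := h.L_pos
  have hLQ := h.L_le_Q
  have hLS := h.L_le_S
  have hpB := h.hB
  have hp := p_pos (n + 1)
  have hR1 : ∀ j, 1 ≤ R j := fun j => by linarith [h.R_ge j]
  have hu : ∀ j, 0 < t * R j := fun j => mul_pos ht (by linarith [h.R_ge j])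
  have hut : ∀ j, 32 * t ≤ t * R j := fun j => by nlinarith [h.R_ge j]
  have hmono : ∀ {a b : ℕ}, a ≤ b → t * R a ≤ t * R b := fun hab =>
    mul_le_mul_of_nonneg_left (h.R_mono hab) ht.le
  have hsum := Av_summable' (F := F k B Q (6 * k * B * R (n + 1)) S)
    (fun y => F_abs_le k (by linarith) y) hR1 ht x'
  -- position of the cluster
  set c : ℝ := 24 * k * i with hc
  have hc0 : 0 ≤ c := by positivity
  have hcL : c + 24 * k ≤ 384 * (k : ℝ) ^ 2 := by
    have : 24 * (k : ℝ) * (i + 1) ≤ 24 * k * (16 * k) := by gcongr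
    rw [hc]
    nlinarith
  set d : ℝ := 3 * (l + 1) + 3 / 2 with hd
  have hd0 : 9 / 2 ≤ d := by rw [hd]; linarith
  have hdk : d ≤ 3 * k + 3 / 2 := by rw [hd]; linarith
  rw [add_assoc, ← hd, abs_le] at hx
  obtain ⟨hx1, hx2⟩ := hx
  have hxL : ∀ j, x' - t * R j ≤ 384 * (k : ℝ) ^ 2 := fun j => by linarith [hut j]
  -- small radii see nothing
  have hsmall : ∀ j, t * R j < 2 → Av (F k B Q (6 * k * B * R (n + 1)) S) (t * R j) x' ≤ 0 := by
    intro j hj
    apply h.Av_nonpos (hu j) (hxL j)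
    have := hut j
    apply tau_zero_near (i + 1)
    · push_cast
      rw [add_sub_cancel_right, ← hc]
      linarith
    · push_cast
      rw [mul_add, ← hc]
      linarith
  have hquart : ∀ j, Av (F k B Q (6 * k * B * R (n + 1)) S) (t * R j) x' ≤ 1 / 4 := by
    intro j
    by_cases hj : t * R j < 2
    · linarith [hsmall j hj]
    · push Not at hj
      refine (h.Av_le_inv (hu j) (hxL j)).trans ?_
      rw [div_le_div_iff₀ (by linarith) (by norm_num)]
      linarith
  -- case A
  by_cases hA : 3 * k * B ≤ t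
  · have h1 : ∑' j, p j * Av (F k B Q (6 * k * B * R (n + 1)) S) (t * R j) x' ≤
        1 * (1 / (6 * k * B)) := by
      refine tsum_le_of (fun j => p j * (1 / (6 * k * B))) hsum (p_hasSum.mul_right _) fun j => ?_
      apply mul_le_mul_of_nonneg_left _ (p_pos j).le
      refine (h.Av_le_inv (hu j) (hxL j)).trans ?_
      apply one_div_le_one_div_of_le (by positivity)
      linarith [hut j]
    refine h1.trans ?_
    rw [one_mul, div_le_div_iff₀ (by positivity) (by positivity)]
    have h2 : p (n + 1) * (6 * k * B) = 18 * k := by linear_combination 6 * k * hpB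
    rw [h2]
    linarith
  push Not at hA
  have hpos : 0 ≤ p (n + 1) / (18 * (l + 1)) := by positivity
  have hRn := h.R_ge n
  have hRn1 := h.R_ge (n + 1)
  have hQ0 : 0 < Q := by linarith
  set r : ℝ := t * R (n + 1) with hr
  have hr0 : 0 < r := hu (n + 1)
  -- case B
  by_cases hB2 : 2 * Q ≤ r
  · have hrU : r ≤ 3 * k * B * R (n + 1) := by
      rw [hr]; gcongr
    have hQU := h.Q_le_U
    have hutr := hut (n + 1)
    rw [← hr] at hutr
    have hN1 : B * (7 / 16 * r) ≤ N1 B Q (6 * k * B * R (n + 1)) (x' + r) := by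
      refine le_trans ?_ (N1_ge (by linarith) (by nlinarith))
      apply mul_le_mul_of_nonneg_left _ (by linarith)
      linarith
    have hJ : Av (F k B Q (6 * k * B * R (n + 1)) S) r x' ≤ 1 / 4 - 7 / 32 * B := by
      refine (h.Av_le hr0 (hxL (n + 1))).trans ?_
      rw [div_le_iff₀ (by linarith)]
      have h1 : tau k (x' - r) ≤ r / 2 := by
        by_cases hj : r < 2
        · linarith
        · push Not at hj
          linarith [tau_le_one h.k_pos (x' - r)]
      have h2 := N2_nonneg k S (x' + r)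
      nlinarith
    have h1 : ∑' j, p j * Av (F k B Q (6 * k * B * R (n + 1)) S) (t * R j) x' ≤
        1 * (1 / 4) + p (n + 1) * (-(7 / 32 * B)) := by
      refine tsum_le_of (fun j => p j * (1 / 4) + if j = n + 1 then p (n + 1) * (-(7 / 32 * B)) else 0) hsum
        ((p_hasSum.mul_right _).add (hasSum_ite_eq (n + 1) _)) fun j => ?_
      split_ifs with hj
      · subst hj
        rw [← mul_add]
        apply mul_le_mul_of_nonneg_left _ (p_pos _).le
        linarith
      · rw [add_zero]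
        exact mul_le_mul_of_nonneg_left (hquart j) (p_pos _).le
    refine h1.trans (le_trans ?_ hpos)
    have h2 : p (n + 1) * (-(7 / 32 * B)) = - 21 / 32 := by linear_combination (-7 / 32) * hpB
    rw [h2]
    norm_num
  push Not at hB2
  -- case C
  have htR : t * R n < 2 := by
    have h1 : Q * (t * R n) = r := by rw [hr, h.hQ]; ring
    by_contra hcon
    push Not at hcon
    nlinarith
  have ht8 : t < 1 / 16 := by linarith [hut n]
  have hlow : ∀ j, j ≤ n → Av (F k B Q (6 * k * B * R (n + 1)) S) (t * R j) x' ≤ 0 := fun j hj =>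
    hsmall j (lt_of_le_of_lt (hmono hj) htR)
  have hfirst : ∀ j, t * R j ≤ d - 9 / 8 →
      Av (F k B Q (6 * k * B * R (n + 1)) S) (t * R j) x' ≤ 0 := by
    intro j hj
    apply h.Av_nonpos (hu j) (hxL j)
    have := hut j
    apply tau_zero_near (i + 1)
    · push_cast
      rw [add_sub_cancel_right, ← hc]
      linarith
    · push_cast
      rw [mul_add, ← hc]
      linarith
  by_cases hC1 : r ≤ d - 9 / 8
  · have h1 : ∑' j, p j * Av (F k B Q (6 * k * B * R (n + 1)) S) (t * R j) x' ≤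
        (p (n + 1) / 3) * (1 / (6 * (l + 1))) := by
      refine tsum_le_of (fun j => (if j ≤ n + 1 then 0 else p j) * (1 / (6 * ((l : ℝ) + 1)))) hsum
        ((p_tail_ite (n + 1)).mul_right _) fun j => ?_
      split_ifs with hj
      · rw [zero_mul]
        exact mul_nonpos_of_nonneg_of_nonpos (p_pos j).le (hfirst j ((hmono hj).trans hC1))
      · apply mul_le_mul_of_nonneg_left _ (p_pos _).le
        by_cases hj2 : t * R j ≤ d - 9 / 8
        · exact (hfirst j hj2).trans (by positivity)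
        · push Not at hj2
          refine (h.Av_le_inv (hu j) (hxL j)).trans ?_
          apply one_div_le_one_div_of_le (by positivity)
          linarith
    refine h1.trans (le_of_eq ?_)
    field_simp
    norm_num
  push Not at hC1
  have hS0 : 0 < S := by linarith
  have hrS : t * R (n + 2) = r * S := by rw [hr, h.hS]; ring
  have hr3 : 3 ≤ r := by linarith
  have hfar : ∀ j, n + 2 ≤ j → tau k (x' - t * R j) = 0 := by
    intro j hj
    apply tau_zero_neg
    have h1 := hmono hj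
    rw [hrS] at h1
    nlinarith
  have hhigh : ∀ j, n + 2 ≤ j → Av (F k B Q (6 * k * B * R (n + 1)) S) (t * R j) x' ≤ 0 := fun j hj =>
    h.Av_nonpos (hu j) (hxL j) (hfar j hj)
  by_cases hC2 : r < d + 9 / 8
  · have hcomb : Av (F k B Q (6 * k * B * R (n + 1)) S) (t * R (n + 2)) x' ≤ - (2 / r) := by
      refine (h.Av_le (hu _) (hxL _)).trans ?_
      rw [hfar _ le_rfl, hrS]
      have h1 := N1_nonneg (by linarith : 0 ≤ B) Q (6 * k * B * R (n + 1)) (x' + r * S)
      have h2 := N2_ge hl S (x' + r * S)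
      rw [← hd] at h2
      have h3 : |x' + r * S - d * S| ≤ 384 * (k : ℝ) ^ 2 + 9 / 8 * S := by
        rw [abs_le]
        constructor <;> nlinarith
      have h4 : 4 * S ≤ N2 k S (x' + r * S) := by linarith
      rw [div_le_iff₀ (by positivity)]
      have h5 : -(2 / r) * (2 * (r * S)) = - (4 * S) := by field_simp; ring
      rw [h5]
      linarith
    have h1 : ∑' j, p j * Av (F k B Q (6 * k * B * R (n + 1)) S) (t * R j) x' ≤
        p (n + 1) * (1 / (2 * r)) + p (n + 2) * (-(2 / r)) := by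
      refine tsum_le_of (fun j => (if j = n + 1 then p (n + 1) * (1 / (2 * r)) else 0) +
        (if j = n + 2 then p (n + 2) * (-(2 / r)) else 0)) hsum
        ((hasSum_ite_eq (n + 1) _).add (hasSum_ite_eq (n + 2) _)) fun j => ?_
      rcases lt_trichotomy j (n + 1) with hj | hj | hj
      · rw [if_neg (by omega), if_neg (by omega), add_zero]
        exact mul_nonpos_of_nonneg_of_nonpos (p_pos j).le (hlow j (by omega))
      · subst hj
        rw [if_pos rfl, if_neg (by omega), add_zero]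
        exact mul_le_mul_of_nonneg_left (h.Av_le_inv (hu _) (hxL _)) (p_pos _).le
      · rw [if_neg (by omega), zero_add]
        split_ifs with hj2
        · subst hj2
          exact mul_le_mul_of_nonneg_left hcomb (p_pos _).le
        · exact mul_nonpos_of_nonneg_of_nonpos (p_pos j).le (hhigh j (by omega))
    refine h1.trans (le_trans (le_of_eq ?_) hpos)
    rw [show n + 2 = n + 1 + 1 from rfl, p_succ (n + 1)]
    field_simp
    ring
  push Not at hC2
  -- case C3
  have hmain : Av (F k B Q (6 * k * B * R (n + 1)) S) (t * R (n + 1)) x' ≤ 1 / (48 * k) := by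
    by_cases hr24 : r < 24 * k
    · refine le_trans ?_ (by positivity)
      apply h.Av_nonpos (hu _) (hxL _)
      rw [← hr]
      apply tau_zero_near i
      · rw [mul_sub, ← hc]
        linarith
      · rw [← hc]
        linarith
    · push Not at hr24
      refine (h.Av_le_inv (hu _) (hxL _)).trans ?_
      apply one_div_le_one_div_of_le (by positivity)
      rw [← hr]
      linarith
  have h1 : ∑' j, p j * Av (F k B Q (6 * k * B * R (n + 1)) S) (t * R j) x' ≤
      p (n + 1) * (1 / (48 * k)) := by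
    refine tsum_le_of (fun j => if j = n + 1 then p (n + 1) * (1 / (48 * (k : ℝ))) else 0) hsum
      (hasSum_ite_eq (n + 1) _) fun j => ?_
    rcases lt_trichotomy j (n + 1) with hj | hj | hj
    · rw [if_neg (by omega)]
      exact mul_nonpos_of_nonneg_of_nonpos (p_pos j).le (hlow j (by omega))
    · subst hj
      rw [if_pos rfl]
      exact mul_le_mul_of_nonneg_left hmain (p_pos _).le
    · rw [if_neg (by omega)]
      exact mul_nonpos_of_nonneg_of_nonpos (p_pos j).le (hhigh j (by omega))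
  refine h1.trans ?_
  rw [mul_one_div]
  apply div_le_div_of_nonneg_left hp.le (by positivity)
  linarith


/-- lower bound for the average when `Psi` vanishes on the right -/
lemma Hyp.Av_ge (h : Hyp R n k B Q S) {u x : ℝ} (hu : 0 < u) :
    (tau k (x - u) - Psi k B Q (6 * k * B * R (n + 1)) S (x + u)) / (2 * u) ≤
    Av (F k B Q (6 * k * B * R (n + 1)) S) u x := by
  have hL := h.L_pos
  have hLQ := h.L_le_Q
  have hLS := h.L_le_S
  have hS0 : 0 ≤ S := by linarith
  rw [Av_F k (by linarith [h.Q_le_U]) hS0 hu]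
  apply div_le_div_of_nonneg_right _ (by linarith)
  have h1 := N1_nonneg (zero_le_one.trans h.B_ge) Q (6 * k * B * R (n + 1)) (x - u)
  have h2 := N2_nonneg k S (x - u)
  have : tau k (x - u) ≤ Psi k B Q (6 * k * B * R (n + 1)) S (x - u) := by
    unfold Psi
    linarith
  linarith

lemma Hyp.Psi_zero_left (h : Hyp R n k B Q S) {v : ℝ} (i : ℕ) (h1 : 24 * (k : ℝ) * i + 1 ≤ v)
    (h2 : v ≤ 24 * k * (i + 1) - 1) (h3 : v ≤ 384 * (k : ℝ) ^ 2) :
    Psi k B Q (6 * k * B * R (n + 1)) S v = 0 := by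
  have hL := h.L_pos
  have hLQ := h.L_le_Q
  have hLS := h.L_le_S
  have hS0 : 0 ≤ S := by linarith
  unfold Psi
  rw [N1_zero_left B (h3.trans hLQ), N2_zero_left k hS0 (by linarith),
    tau_zero_near (i + 1) (by push_cast; rw [add_sub_cancel_right]; exact h1)
      (by push_cast; exact h2)]
  norm_num

lemma tau_zero_right {k : ℕ} {y : ℝ} (h2 : 384 * (k : ℝ) ^ 2 ≤ y) : tau k y = 0 := by
  apply tau_zero
  intro i' hi'
  have h3 : (i' : ℝ) + 1 ≤ 16 * k := by exact_mod_cast hi'
  have hk : (0 : ℝ) ≤ k := Nat.cast_nonneg k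
  have h4 : 24 * (k : ℝ) * (i' + 1) ≤ 24 * k * (16 * k) := by gcongr
  refine le_trans ?_ (le_abs_self _)
  have hk1 : (1 : ℝ) ≤ k := by
    have : 1 ≤ k := by omega
    exact_mod_cast this
  nlinarith

lemma peak (h : Hyp R n k B Q S) {i l : ℕ} (hi : i < 16 * k) (hl : l < k) {t x' : ℝ}
    (ht : t * R (n + 1) = 3 * (l + 1)) (hx : |x' - (24 * k * i + 3 * (l + 1))| ≤ t + 1 / 16) :
    17 * p (n + 1) / (144 * (l + 1)) ≤
    ∑' j, p j * Av (F k B Q (6 * k * B * R (n + 1)) S) (t * R j) x' := by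
  have hk : (1 : ℝ) ≤ k := by exact_mod_cast h.k_pos
  have hi' : (i : ℝ) + 1 ≤ 16 * k := by exact_mod_cast hi
  have hl' : (l : ℝ) + 1 ≤ k := by exact_mod_cast hl
  have hl0 : (0 : ℝ) ≤ l := Nat.cast_nonneg l
  have hi0 : (0 : ℝ) ≤ i := Nat.cast_nonneg i
  have hB := h.B_ge
  have hL := h.L_pos
  have hLQ := h.L_le_Q
  have hLS := h.L_le_S
  have hUS := h.U_le_S
  have hpB := h.hB
  have hp := p_pos (n + 1)
  have hRn := h.R_ge n
  have hRn1 := h.R_ge (n + 1)
  have hQ0 : 0 < Q := by linarith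
  have hS0 : 0 < S := by linarith
  have hRQ : Q * 16 ≤ R (n + 1) := by rw [h.hQ]; gcongr; linarith
  have ht0 : 0 < t := by
    by_contra hcon
    push Not at hcon
    nlinarith
  have hR1 : ∀ j, 1 ≤ R j := fun j => by linarith [h.R_ge j]
  have hu : ∀ j, 0 < t * R j := fun j => mul_pos ht0 (by linarith [h.R_ge j])
  have hmono : ∀ {a b : ℕ}, a ≤ b → t * R a ≤ t * R b := fun hab =>
    mul_le_mul_of_nonneg_left (h.R_mono hab) ht0.le
  have hsum := Av_summable' (F := F k B Q (6 * k * B * R (n + 1)) S)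
    (fun y => F_abs_le k (by linarith) y) hR1 ht0 x'
  set c : ℝ := 24 * k * i with hc
  have hc0 : 0 ≤ c := by positivity
  have hcL : c + 24 * k ≤ 384 * (k : ℝ) ^ 2 := by
    have : 24 * (k : ℝ) * (i + 1) ≤ 24 * k * (16 * k) := by gcongr
    rw [hc]
    nlinarith
  have hc1 : 24 * (k : ℝ) * (i + 1) = c + 24 * k := by rw [hc]; ring
  set d : ℝ := 3 * (l + 1) with hd
  have hd3 : 3 ≤ d := by rw [hd]; linarith
  have hdk : d ≤ 3 * k := by rw [hd]; linarith
  have ht8 : t ≤ 1 / 16 := by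
    by_contra hcon
    push Not at hcon
    nlinarith
  rw [abs_le] at hx
  obtain ⟨hx1, hx2⟩ := hx
  have htn : t * R n ≤ 1 := by
    have h1 : Q * (t * R n) = d := by rw [← ht, h.hQ]; ring
    by_contra hcon
    push Not at hcon
    nlinarith
  have hlow : ∀ j, j ≤ n → 0 ≤ Av (F k B Q (6 * k * B * R (n + 1)) S) (t * R j) x' := by
    intro j hj
    have h1 := hmono hj
    have h2 := hu j
    refine le_trans ?_ (h.Av_ge (hu j))
    rw [h.Psi_zero_left i (by linarith) (by linarith) (by linarith), sub_zero]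
    exact div_nonneg (tau_nonneg _ _) (by linarith)
  have hmain : 7 / 8 / (2 * d) ≤ Av (F k B Q (6 * k * B * R (n + 1)) S) (t * R (n + 1)) x' := by
    rw [ht]
    refine le_trans ?_ (h.Av_ge (by linarith))
    rw [h.Psi_zero_left i (by linarith) (by linarith) (by linarith), sub_zero]
    apply div_le_div_of_nonneg_right _ (by linarith)
    refine le_trans ?_ (tau_ge hi _)
    have : |x' - d - 24 * k * i| ≤ 1 / 8 := by
      rw [← hc, abs_le]
      constructor <;> linarith
    linarith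
  have hrS : t * R (n + 2) = d * S := by rw [h.hS, ← ht]; ring
  have hPsiR : ∀ v, 3 * S ≤ v → Psi k B Q (6 * k * B * R (n + 1)) S v = N2 k S v := by
    intro v hv
    unfold Psi
    rw [tau_zero_right (by linarith), N1_zero_right B (by nlinarith)]
    ring
  have hcomb : - (8 * (384 * (k : ℝ) ^ 2) / (d * S)) ≤
      Av (F k B Q (6 * k * B * R (n + 1)) S) (t * R (n + 2)) x' := by
    rw [hrS]
    refine le_trans ?_ (h.Av_ge (by positivity))
    rw [hPsiR _ (by nlinarith)]
    have h1 : N2 k S (x' + d * S) ≤ 16 * x' := N2_le hl hS0.le (by linarith) (by linarith)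
    have h2 := tau_nonneg k (x' - d * S)
    rw [le_div_iff₀ (by positivity)]
    have h5 : -(8 * (384 * (k : ℝ) ^ 2) / (d * S)) * (2 * (d * S)) = - (16 * (384 * (k : ℝ) ^ 2)) := by
      field_simp
      ring
    rw [h5]
    linarith
  have hcomb2 : - (1 / (3 * d)) ≤ Av (F k B Q (6 * k * B * R (n + 1)) S) (t * R (n + 2)) x' := by
    refine le_trans ?_ hcomb
    apply neg_le_neg
    rw [div_le_div_iff₀ (by positivity) (by positivity)]
    nlinarith
  have hhigh : ∀ j, n + 3 ≤ j → 0 ≤ Av (F k B Q (6 * k * B * R (n + 1)) S) (t * R j) x' := by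
    intro j hj
    have h1 := hmono hj
    have h2 : (k + 1) * (d * S) ≤ t * R (n + 3) := by
      rw [← hrS]
      calc (k + 1) * (t * R (n + 2)) = t * ((k + 1) * R (n + 2)) := by ring
        _ ≤ t * R (n + 3) := by gcongr; exact h.far
    have h3 : (k + 1) * (3 * S) ≤ (k + 1) * (d * S) := by gcongr
    refine le_trans ?_ (h.Av_ge (hu j))
    rw [hPsiR _ (by nlinarith), N2_zero_right k hS0.le (by linarith), sub_zero]
    exact div_nonneg (tau_nonneg _ _) (by linarith [hu j])
  have h1 : p (n + 1) * (7 / 8 / (2 * d)) + p (n + 2) * (-(1 / (3 * d))) ≤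
      ∑' j, p j * Av (F k B Q (6 * k * B * R (n + 1)) S) (t * R j) x' := by
    refine hasSum_le (f := fun j => (if j = n + 1 then p (n + 1) * (7 / 8 / (2 * d)) else 0) +
      (if j = n + 2 then p (n + 2) * (-(1 / (3 * d))) else 0)) (fun j => ?_)
      ((hasSum_ite_eq (n + 1) _).add (hasSum_ite_eq (n + 2) _)) hsum.hasSum
    rcases lt_trichotomy j (n + 1) with hj | hj | hj
    · rw [if_neg (by omega), if_neg (by omega), add_zero]
      exact mul_nonneg (p_pos j).le (hlow j (by omega))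
    · subst hj
      rw [if_pos rfl, if_neg (by omega), add_zero]
      exact mul_le_mul_of_nonneg_left hmain (p_pos _).le
    · rw [if_neg (by omega), zero_add]
      split_ifs with hj2
      · subst hj2
        exact mul_le_mul_of_nonneg_left hcomb2 (p_pos _).le
      · exact mul_nonneg (p_pos j).le (hhigh j (by omega))
  refine le_trans (le_of_eq ?_) h1
  rw [show n + 2 = n + 1 + 1 from rfl, p_succ (n + 1), hd]
  field_simp
  norm_num

/-! ### parameters -/

/-- number of teeth at level `j` -/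
def kk (j : ℕ) : ℕ := 2 ^ (8 ^ j)

/-- the radii -/
noncomputable def Rr : ℕ → ℝ
  | 0 => 32
  | (j + 1) => 10 ^ 4 * (kk (j + 1) : ℝ) ^ 2 * (Rr j) ^ 2

lemma kk_pos (j : ℕ) : 1 ≤ kk j := Nat.one_le_two_pow

lemma kk_mono {i j : ℕ} (h : i ≤ j) : kk i ≤ kk j :=
  Nat.pow_le_pow_right (by norm_num) (Nat.pow_le_pow_right (by norm_num) h)

lemma Rr_succ (j : ℕ) : Rr (j + 1) = 10 ^ 4 * (kk (j + 1) : ℝ) ^ 2 * (Rr j) ^ 2 := rfl

lemma Rr_ge (j : ℕ) : 32 ≤ Rr j := by
  induction j with
  | zero => exact le_rfl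
  | succ j ih =>
    rw [Rr_succ]
    have h : (1 : ℝ) ≤ kk (j + 1) := by exact_mod_cast kk_pos (j + 1)
    have h2 : (1 : ℝ) ≤ (kk (j + 1) : ℝ) ^ 2 := one_le_pow₀ h
    nlinarith [pow_pos (by linarith : 0 < Rr j) 2]

lemma Rr_mono : Monotone Rr := by
  apply monotone_nat_of_le_succ
  intro j
  rw [Rr_succ]
  have h : (1 : ℝ) ≤ kk (j + 1) := by exact_mod_cast kk_pos (j + 1)
  have h2 : (1 : ℝ) ≤ (kk (j + 1) : ℝ) ^ 2 := one_le_pow₀ h
  have h3 := Rr_ge j
  nlinarith

lemma hyp (n : ℕ) : Hyp Rr n (kk (n + 1)) (4 ^ (n + 2)) (Rr (n + 1) / Rr n)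
    (Rr (n + 2) / Rr (n + 1)) where
  k_pos := kk_pos _
  R_ge := Rr_ge
  R_mono := Rr_mono
  hQ := (div_mul_cancel₀ _ (by linarith [Rr_ge n])).symm
  hS := (div_mul_cancel₀ _ (by linarith [Rr_ge (n + 1)])).symm
  hB := by
    unfold p
    exact div_mul_cancel₀ _ (by positivity)
  B_ge := one_le_pow₀ (by norm_num)
  L_le_Q := by
    have h1 := Rr_ge n
    rw [Rr_succ n, le_div_iff₀ (by linarith)]
    have h2 : (0 : ℝ) ≤ (kk (n + 1) : ℝ) ^ 2 := by positivity
    have h3 : 384 * Rr n ≤ 10 ^ 4 * Rr n ^ 2 := by nlinarith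
    nlinarith
  L_le_S := by
    have h1 := Rr_ge (n + 1)
    rw [Rr_succ (n + 1), le_div_iff₀ (by linarith)]
    have h0 : (kk (n + 1) : ℝ) ≤ kk (n + 2) := by exact_mod_cast kk_mono (by omega)
    have h2 : (kk (n + 1) : ℝ) ^ 2 ≤ (kk (n + 2) : ℝ) ^ 2 := by gcongr
    have h4 : (0 : ℝ) ≤ (kk (n + 1) : ℝ) ^ 2 := by positivity
    have h3 : 24 * 384 * Rr (n + 1) ≤ 10 ^ 4 * Rr (n + 1) ^ 2 := by nlinarith
    calc 24 * (384 * (kk (n + 1) : ℝ) ^ 2) * Rr (n + 1)
        = (kk (n + 1) : ℝ) ^ 2 * (24 * 384 * Rr (n + 1)) := by ring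
      _ ≤ (kk (n + 2) : ℝ) ^ 2 * (10 ^ 4 * Rr (n + 1) ^ 2) := by gcongr
      _ = _ := by ring
  U_le_S := by
    have h1 := Rr_ge (n + 1)
    rw [Rr_succ (n + 1), le_div_iff₀ (by linarith)]
    have h0 : (kk (n + 1) : ℝ) ≤ kk (n + 2) := by exact_mod_cast kk_mono (by omega)
    have hBk : (4 : ℝ) ^ (n + 2) ≤ kk (n + 1) := by
      have : 4 ^ (n + 2) ≤ kk (n + 1) := by
        unfold kk
        rw [show (4 : ℕ) = 2 ^ 2 by norm_num, ← pow_mul]
        apply Nat.pow_le_pow_right (by norm_num)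
        rw [show (8 : ℕ) = 2 ^ 3 by norm_num, ← pow_mul]
        have h5 : n + 2 < 2 ^ (n + 2) := Nat.lt_two_pow_self
        calc 2 * (n + 2) ≤ 2 * 2 ^ (n + 2) := by omega
          _ = 2 ^ (n + 3) := by ring
          _ ≤ 2 ^ (3 * (n + 1)) := Nat.pow_le_pow_right (by norm_num) (by omega)
      exact_mod_cast this
    calc 4 * (kk (n + 1) : ℝ) * 4 ^ (n + 2) * Rr (n + 1) * Rr (n + 1)
        ≤ 4 * (kk (n + 2) : ℝ) * kk (n + 2) * Rr (n + 1) * Rr (n + 1) := by
          gcongr
          exact hBk.trans h0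
      _ = 4 * (kk (n + 2) : ℝ) ^ 2 * Rr (n + 1) ^ 2 := by ring
      _ ≤ _ := by gcongr; norm_num
  far := by
    rw [Rr_succ (n + 2)]
    have h1 := Rr_ge (n + 2)
    have hk1 : (1 : ℝ) ≤ kk (n + 1) := by exact_mod_cast kk_pos (n + 1)
    have h0 : (kk (n + 1) : ℝ) ≤ kk (n + 3) := by exact_mod_cast kk_mono (by omega)
    have h2 : (kk (n + 1) : ℝ) + 1 ≤ 10 ^ 4 * (kk (n + 3) : ℝ) ^ 2 := by nlinarith
    have h3 : Rr (n + 2) ≤ Rr (n + 2) ^ 2 := by nlinarith
    calc ((kk (n + 1) : ℝ) + 1) * Rr (n + 2) ≤ 10 ^ 4 * (kk (n + 3) : ℝ) ^ 2 * Rr (n + 2) ^ 2 := by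
          gcongr
      _ = _ := rfl

lemma B_le_k (n : ℕ) : (4 : ℝ) ^ (n + 2) ≤ kk (n + 1) := by
  have : 4 ^ (n + 2) ≤ kk (n + 1) := by
    unfold kk
    rw [show (4 : ℕ) = 2 ^ 2 by norm_num, ← pow_mul]
    apply Nat.pow_le_pow_right (by norm_num)
    rw [show (8 : ℕ) = 2 ^ 3 by norm_num, ← pow_mul]
    have h5 : n + 2 < 2 ^ (n + 2) := Nat.lt_two_pow_self
    calc 2 * (n + 2) ≤ 2 * 2 ^ (n + 2) := by omega
      _ = 2 ^ (n + 3) := by ring
      _ ≤ 2 ^ (3 * (n + 1)) := Nat.pow_le_pow_right (by norm_num) (by omega)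
  exact_mod_cast this

lemma p_log (n : ℕ) : 3 / 8 * 2 ^ (n + 1) ≤ p (n + 1) * Real.log (kk (n + 1)) := by
  unfold p kk
  push_cast
  rw [Real.log_pow]
  push_cast
  have h2 : (1 / 2 : ℝ) ≤ Real.log 2 := by linarith [Real.log_two_gt_d9]
  have e : (8 : ℝ) ^ (n + 1) = 4 ^ (n + 1) * 2 ^ (n + 1) := by rw [← mul_pow]; norm_num
  have e2 : (3 : ℝ) / 4 ^ (n + 1 + 1) * (8 ^ (n + 1) * Real.log 2) = 3 / 4 * 2 ^ (n + 1) * Real.log 2 := by
    rw [e, pow_succ 4 (n + 1)]
    field_simp
  rw [e2]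
  have h3 : (0 : ℝ) < 2 ^ (n + 1) := by positivity
  nlinarith

/-! ### variation from oscillation -/

lemma var_lower {M : ℝ → ℝ} {k : ℕ} {c : ℝ} (hc : 0 ≤ c)
    (h : ∀ i l : ℕ, i < 16 * k → l < k →
      c / (l + 1) ≤ M (24 * k * i + 3 * (l + 1)) - M (24 * k * i + 3 * (l + 1) + 3 / 2)) :
    ENNReal.ofReal (16 * k * (c * Real.log k)) ≤ eVariationOn M univ := by
  have hk0 : (0 : ℝ) ≤ k := Nat.cast_nonneg k
  -- one cluster
  have h1 : ∀ i : ℕ, i < 16 * k → ENNReal.ofReal (c * Real.log k) ≤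
      eVariationOn M (Icc (24 * (k : ℝ) * i) (24 * k * (i + 1 : ℕ))) := by
    intro i hi
    have hk1 : (1 : ℝ) ≤ k := by
      have : 1 ≤ k := by omega
      exact_mod_cast this
    have hm : Monotone (fun l : ℕ => 24 * (k : ℝ) * i + 3 * (l + 1)) := by
      intro a b hab
      have : (a : ℝ) ≤ b := by exact_mod_cast hab
      dsimp only
      linarith
    have h2 := eVariationOn.sum' M hm (n := k)
    have h3 : eVariationOn M (Icc (24 * (k : ℝ) * i + 3 * ((0 : ℕ) + 1)) (24 * (k : ℝ) * i + 3 * (k + 1))) ≤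
        eVariationOn M (Icc (24 * (k : ℝ) * i) (24 * k * (i + 1 : ℕ))) := by
      apply eVariationOn.mono
      apply Icc_subset_Icc
      · push_cast
        linarith
      · push_cast
        nlinarith
    refine le_trans ?_ h3
    rw [← h2]
    have h4 : ∀ l ∈ Finset.range k, ENNReal.ofReal (c / (l + 1)) ≤
        eVariationOn M (Icc (24 * (k : ℝ) * i + 3 * ((l : ℕ) + 1)) (24 * (k : ℝ) * i + 3 * ((l + 1 : ℕ) + 1))) := by
      intro l hl
      have h5 := h i l hi (Finset.mem_range.1 hl)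
      refine le_trans ?_ (eVariationOn.edist_le M (x := 24 * (k : ℝ) * i + 3 * (l + 1))
        (y := 24 * (k : ℝ) * i + 3 * (l + 1) + 3 / 2) ?_ ?_)
      · rw [edist_dist, Real.dist_eq]
        apply ENNReal.ofReal_le_ofReal
        exact h5.trans (le_abs_self _)
      · rw [mem_Icc]
        push_cast
        constructor <;> linarith
      · rw [mem_Icc]
        push_cast
        constructor <;> linarith
    refine le_trans ?_ (Finset.sum_le_sum h4)
    rw [← ENNReal.ofReal_sum_of_nonneg (fun l _ => by positivity)]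
    apply ENNReal.ofReal_le_ofReal
    have h6 : Real.log k ≤ ∑ l ∈ Finset.range k, 1 / ((l : ℝ) + 1) := by
      have h7 := log_add_one_le_harmonic k
      unfold harmonic at h7
      push_cast at h7
      refine le_trans (Real.log_le_log (by linarith) (by linarith : (k : ℝ) ≤ k + 1)) (h7.trans (le_of_eq ?_))
      apply Finset.sum_congr rfl
      intro l _
      rw [one_div]
    calc c * Real.log k ≤ c * ∑ l ∈ Finset.range k, 1 / ((l : ℝ) + 1) := by gcongr
      _ = ∑ l ∈ Finset.range k, c / ((l : ℝ) + 1) := by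
          rw [Finset.mul_sum]
          apply Finset.sum_congr rfl
          intro l _
          rw [mul_one_div]
  have hm : Monotone (fun i : ℕ => 24 * (k : ℝ) * i) := by
    intro a b hab
    have : (a : ℝ) ≤ b := by exact_mod_cast hab
    dsimp only
    gcongr
  have h2 := eVariationOn.sum' M hm (n := 16 * k)
  refine le_trans ?_ (eVariationOn.mono M (subset_univ (Icc (24 * (k : ℝ) * (0 : ℕ)) (24 * (k : ℝ) * (16 * k : ℕ)))))
  rw [← h2]
  refine le_trans ?_ (Finset.sum_le_sum fun i hi => h1 i (Finset.mem_range.1 hi))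
  rw [Finset.sum_const, Finset.card_range, nsmul_eq_mul, ENNReal.ofReal_mul (by positivity)]
  gcongr
  rw [← ENNReal.ofReal_natCast]
  push_cast
  exact le_rfl

/-- what is used about the kernel -/
structure Good (R : ℕ → ℝ) (φ : ℝ → ℝ) : Prop where
  nonneg : ∀ x, 0 ≤ φ x
  int : Integrable φ
  one : ∫ x, φ x = 1
  le : ∀ (F : ℝ → ℝ) (M x t c : ℝ), Measurable F → (∀ y, |F y| ≤ M) → 0 < t →
     (∀ x', |x' - x| ≤ t → ∑' j, p j * Av F (t * R j) x' ≤ c) → ∫ u, φ u * F (x - t * u) ≤ c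
  ge : ∀ (F : ℝ → ℝ) (M x t c : ℝ), Measurable F → (∀ y, |F y| ≤ M) → 0 < t →
     (∀ x', |x' - x| ≤ t → c ≤ ∑' j, p j * Av F (t * R j) x') → c ≤ ∫ u, φ u * F (x - t * u)

lemma Good.conv {R : ℕ → ℝ} {φ : ℝ → ℝ} (hφ : Good R φ) {F : ℝ → ℝ} {M : ℝ} (hm : Measurable F)
    (hb : ∀ y, |F y| ≤ M) (x : ℝ) {t : ℝ} (ht : 0 < t) :
    ∫ y, t⁻¹ * φ (y / t) * |M + F (x - y)| = M + ∫ u, φ u * F (x - t * u) := by
  rw [conv_eq φ (fun y => M + F y) x ht]
  have e : ∀ u, φ u * |M + F (x - t * u)| = φ u * M + φ u * F (x - t * u) := by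
    intro u
    rw [abs_of_nonneg (by linarith [(abs_le.1 (hb (x - t * u))).1]), mul_add]
  simp only [e]
  have hF : Measurable (fun u => F (x - t * u)) := by fun_prop
  rw [integral_add (hφ.int.mul_const M), integral_mul_const, hφ.one, one_mul]
  exact hφ.int.mul_bdd (c := M) hF.aestronglyMeasurable
    (Eventually.of_forall fun u => by rw [Real.norm_eq_abs]; exact hb _)

lemma Good.abs_conv_le {R : ℕ → ℝ} {φ : ℝ → ℝ} (hφ : Good R φ) {F : ℝ → ℝ} {M : ℝ}
    (hb : ∀ y, |F y| ≤ M) (x t : ℝ) : ∫ u, φ u * F (x - t * u) ≤ M := by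
  by_cases hi : Integrable (fun u => φ u * F (x - t * u))
  · calc ∫ u, φ u * F (x - t * u) ≤ ∫ u, φ u * M := by
          refine integral_mono hi (hφ.int.mul_const M) fun u => ?_
          exact mul_le_mul_of_nonneg_left (abs_le.1 (hb _)).2 (hφ.nonneg u)
      _ = M := by rw [integral_mul_const, hφ.one, one_mul]
  · rw [integral_undef hi]
    exact (abs_nonneg _).trans (hb 0)

lemma Rr_ge_self (j : ℕ) : (j : ℝ) ≤ Rr j := by
  induction j with
  | zero => exact (by norm_num : ((0 : ℕ) : ℝ) ≤ 32)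
  | succ j ih =>
    rw [Rr_succ]
    have h : (1 : ℝ) ≤ kk (j + 1) := by exact_mod_cast kk_pos (j + 1)
    have h2 : (1 : ℝ) ≤ (kk (j + 1) : ℝ) ^ 2 := one_le_pow₀ h
    have h3 := Rr_ge j
    push_cast
    nlinarith

lemma Rr_ge_one (j : ℕ) : 1 ≤ Rr j := by linarith [Rr_ge j]

lemma phis_pos (u : ℝ) : 0 < phis Rr u := by
  obtain ⟨j, hj⟩ := exists_nat_ge |u|
  have h1 : 0 < term Rr j u := by
    unfold term
    rw [indicator_of_mem]
    · have := p_pos j
      have := Rr_ge j
      positivity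
    · have := abs_le.1 (hj.trans (Rr_ge_self j))
      exact ⟨this.1, this.2⟩
  exact lt_of_lt_of_le h1 ((term_summable Rr_ge_one u).le_tsum j (fun i _ => term_nonneg Rr_ge_one i u))

lemma b_pos {x : ℝ} (hx : |x| < 1) : 0 < b x := by
  unfold b
  apply mul_pos (inv_pos.2 g0_integral_pos)
  unfold g0
  apply expNegInvGlue.pos_of_pos
  nlinarith [sq_abs x, abs_nonneg x]

lemma phi_pos (u : ℝ) : 0 < phi Rr u := by
  unfold phi
  rw [integral_pos_iff_support_of_nonneg (fun v => mul_nonneg (phis_nonneg Rr_ge_one v) (b_nonneg _))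
    (phi_int_integrable Rr_ge_one u)]
  have h : Ioo (u - 1) (u + 1) ⊆ Function.support (fun v => phis Rr v * b (u - v)) := by
    intro v hv
    rw [Function.mem_support]
    apply (mul_pos (phis_pos v) (b_pos _)).ne'
    rw [abs_lt]
    constructor <;> linarith [hv.1, hv.2]
  refine lt_of_lt_of_le ?_ (measure_mono h)
  rw [Real.volume_Ioo]
  simp only [ENNReal.ofReal_pos]
  linarith

lemma good : Good Rr (phi Rr) where
  nonneg := phi_nonneg Rr_ge_one
  int := phi_integrable Rr_ge_one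
  one := phi_integral Rr_ge_one
  le := fun _ _ _ _ _ hm hb ht h => conv_le Rr_ge_one hm hb ht h
  ge := fun _ _ _ _ _ hm hb ht h => le_conv Rr_ge_one hm hb ht h

end Pool.Agent.Results.MP_0067de_an.DecreasingKernel
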