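import Pool.Agent.Lib.MP_0067de_h58.DK

open MeasureTheory Set Filter Topology
open scoped ENNReal NNReal ContDiff

namespace Pool.Agent.Results.MP_0067de_an.DecreasingKernel

/-! ### mollification -/

/-- the bump of width `1 / 16` -/
noncomputable def be (s : ℝ) : ℝ := 16 * b (16 * s)

lemma be_nonneg (s : ℝ) : 0 ≤ be s := mul_nonneg (by norm_num) (b_nonneg _)

lemma be_zero {s : ℝ} (h : 1 / 16 ≤ |s|) : be s = 0 := by
  unfold be
  rw [b_zero, mul_zero]
  rw [abs_mul, abs_of_pos (by norm_num : (0 : ℝ) < 16)]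
  linarith

lemma be_contDiff : ContDiff ℝ ∞ be := by
  unfold be
  exact contDiff_const.mul (b_contDiff.comp (contDiff_const.mul contDiff_id))

lemma be_hasCompactSupport : HasCompactSupport be := by
  apply HasCompactSupport.intro (isCompact_Icc (a := (-1 / 16 : ℝ)) (b := 1 / 16))
  intro x hx
  apply be_zero
  by_contra h
  push Not at h
  rw [abs_lt] at h
  exact hx ⟨by linarith [h.1], h.2.le⟩

lemma be_integrable : Integrable be :=
  be_contDiff.continuous.integrable_of_hasCompactSupport be_hasCompactSupport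

lemma be_integral : ∫ s, be s = 1 := by
  unfold be
  rw [integral_const_mul]
  have e := Measure.integral_comp_mul_left (fun u => b u) (16 : ℝ)
  rw [e, b_integral, abs_of_pos (by norm_num)]
  norm_num

/-- the mollified function -/
noncomputable def moll (g : ℝ → ℝ) (x : ℝ) : ℝ := ∫ s, be s * g (x - s)

open scoped Convolution in
lemma moll_eq_conv (g : ℝ → ℝ) :
    moll g = convolution be g (ContinuousLinearMap.mul ℝ ℝ) volume := by
  funext u
  rfl

lemma moll_contDiff {g : ℝ → ℝ} (hg : LocallyIntegrable g) : ContDiff ℝ ∞ (moll g) := by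
  rw [moll_eq_conv]
  exact be_hasCompactSupport.contDiff_convolution_left _ be_contDiff hg

lemma moll_hasCompactSupport {g : ℝ → ℝ} (hg : HasCompactSupport g) :
    HasCompactSupport (moll g) := by
  rw [moll_eq_conv]
  exact be_hasCompactSupport.convolution _ hg

lemma moll_nonneg {g : ℝ → ℝ} (hg : ∀ x, 0 ≤ g x) (x : ℝ) : 0 ≤ moll g x :=
  integral_nonneg fun s => mul_nonneg (be_nonneg s) (hg _)

lemma moll_integrable {g : ℝ → ℝ} {M : ℝ} (hm : Measurable g) (hb : ∀ y, |g y| ≤ M) (x : ℝ) :
    Integrable (fun s => be s * g (x - s)) :=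
  be_integrable.mul_bdd (c := M)
    (by
      have : Measurable (fun s => g (x - s)) := by fun_prop
      exact this.aestronglyMeasurable)
    (Eventually.of_forall fun u => by rw [Real.norm_eq_abs]; exact hb _)

lemma moll_eVar {g : ℝ → ℝ} {M : ℝ} (hm : Measurable g) (hb : ∀ y, |g y| ≤ M) :
    eVariationOn (moll g) univ ≤ eVariationOn g univ := by
  refine iSup_le fun q => ?_
  obtain ⟨n, u, hu, us⟩ := q
  dsimp only
  have hbe : ∫⁻ s, ‖be s‖ₑ = 1 := by
    have h1 := ofReal_integral_eq_lintegral_ofReal be_integrable (Eventually.of_forall be_nonneg)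
    rw [be_integral, ENNReal.ofReal_one] at h1
    rw [h1]
    apply lintegral_congr
    intro s
    rw [Real.enorm_of_nonneg (be_nonneg s)]
  have hmeas : ∀ i : ℕ, Measurable (fun s => ‖be s‖ₑ * edist (g (u (i + 1) - s)) (g (u i - s))) := by
    intro i
    have h1 : Measurable be := be_contDiff.continuous.measurable
    have h2 : Measurable (fun s => g (u (i + 1) - s)) := by fun_prop
    have h3 : Measurable (fun s => g (u i - s)) := by fun_prop
    exact h1.enorm.mul (h2.edist h3)
  have h1 : ∀ i ∈ Finset.range n, edist (moll g (u (i + 1))) (moll g (u i)) ≤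
      ∫⁻ s, ‖be s‖ₑ * edist (g (u (i + 1) - s)) (g (u i - s)) := by
    intro i _
    rw [edist_eq_enorm_sub]
    unfold moll
    rw [← integral_sub (moll_integrable hm hb _) (moll_integrable hm hb _)]
    refine (enorm_integral_le_lintegral_enorm _).trans (le_of_eq ?_)
    apply lintegral_congr
    intro s
    rw [← mul_sub, enorm_mul, edist_eq_enorm_sub]
  refine (Finset.sum_le_sum h1).trans ?_
  rw [← lintegral_finsetSum _ (fun i _ => hmeas i)]
  calc ∫⁻ s, ∑ i ∈ Finset.range n, ‖be s‖ₑ * edist (g (u (i + 1) - s)) (g (u i - s))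
      ≤ ∫⁻ s, ‖be s‖ₑ * eVariationOn g univ := by
        apply lintegral_mono
        intro s
        dsimp only
        rw [← Finset.mul_sum]
        gcongr
        exact eVariationOn.sum_le (f := g) (u := fun i => u i - s)
          (fun a c hac => by dsimp only; linarith [hu hac]) (fun _ => mem_univ _)
    _ = eVariationOn g univ := by
        rw [lintegral_mul_const _ be_contDiff.continuous.measurable.enorm, hbe, one_mul]

lemma moll_swap {φ g : ℝ → ℝ} {M : ℝ} (hφ : Integrable φ) (hm : Measurable g)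
    (hb : ∀ y, |g y| ≤ M) (x t : ℝ) :
    Integrable (fun s => be s * ∫ u, φ u * g (x - s - t * u)) ∧
    ∫ u, φ u * moll g (x - t * u) = ∫ s, be s * ∫ u, φ u * g (x - s - t * u) := by
  have hint : Integrable (fun q : ℝ × ℝ => (φ q.1 * be q.2) * g (x - q.2 - t * q.1))
      (volume.prod volume) := by
    refine (hφ.mul_prod be_integrable).mul_bdd (c := M) ?_
      (Eventually.of_forall fun u => by rw [Real.norm_eq_abs]; exact hb _)
    have : Measurable (fun q : ℝ × ℝ => g (x - q.2 - t * q.1)) := by fun_prop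
    exact this.aestronglyMeasurable
  constructor
  · have h1 := hint.integral_prod_right
    refine h1.congr (Eventually.of_forall fun s => ?_)
    dsimp only
    rw [← integral_const_mul]
    congr 1
    funext u
    ring
  · have h2 := integral_integral_swap (f := fun u s => (φ u * be s) * g (x - s - t * u)) hint
    calc ∫ u, φ u * moll g (x - t * u) = ∫ u, ∫ s, (φ u * be s) * g (x - s - t * u) := by
          congr 1
          funext u
          unfold moll
          rw [← integral_const_mul]
          congr 1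
          funext s
          rw [show x - t * u - s = x - s - t * u by ring]
          ring
      _ = ∫ s, ∫ u, (φ u * be s) * g (x - s - t * u) := h2
      _ = _ := by
          congr 1
          funext s
          rw [← integral_const_mul]
          congr 1
          funext u
          ring

lemma moll_le {φ g : ℝ → ℝ} {M c : ℝ} (hφ : Integrable φ) (hm : Measurable g)
    (hb : ∀ y, |g y| ≤ M) (x t : ℝ)
    (h : ∀ y, |y - x| ≤ 1 / 16 → ∫ u, φ u * g (y - t * u) ≤ c) :
    ∫ u, φ u * moll g (x - t * u) ≤ c := by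
  obtain ⟨h1, h2⟩ := moll_swap hφ hm hb x t
  rw [h2]
  have hc : ∫ s, be s * c = c := by rw [integral_mul_const, be_integral, one_mul]
  rw [← hc]
  refine integral_mono h1 (be_integrable.mul_const c) fun s => ?_
  dsimp only
  by_cases hs : 1 / 16 ≤ |s|
  · rw [be_zero hs, zero_mul, zero_mul]
  · push Not at hs
    refine mul_le_mul_of_nonneg_left (h _ ?_) (be_nonneg s)
    rw [show x - s - x = -s by ring, abs_neg]
    exact hs.le

lemma le_moll {φ g : ℝ → ℝ} {M c : ℝ} (hφ : Integrable φ) (hm : Measurable g)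
    (hb : ∀ y, |g y| ≤ M) (x t : ℝ)
    (h : ∀ y, |y - x| ≤ 1 / 16 → c ≤ ∫ u, φ u * g (y - t * u)) :
    c ≤ ∫ u, φ u * moll g (x - t * u) := by
  obtain ⟨h1, h2⟩ := moll_swap hφ hm hb x t
  rw [h2]
  have hc : ∫ s, be s * c = c := by rw [integral_mul_const, be_integral, one_mul]
  rw [← hc]
  refine integral_mono (be_integrable.mul_const c) h1 fun s => ?_
  dsimp only
  by_cases hs : 1 / 16 ≤ |s|
  · rw [be_zero hs, zero_mul, zero_mul]
  · push Not at hs
    refine mul_le_mul_of_nonneg_left (h _ ?_) (be_nonneg s)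
    rw [show x - s - x = -s by ring, abs_neg]
    exact hs.le

/-! ### compact supports and the cut-off -/

lemma gs_zero {a c x : ℝ} (h : x ∉ Icc (c - |a|) (c + |a|)) : gs a c x = 0 := by
  have h1 := neg_abs_le a
  have h2 := le_abs_self a
  unfold gs hv
  by_cases hx : c - |a| ≤ x
  · have hx2 : c + |a| < x := by
      by_contra hcon
      push Not at hcon
      exact h ⟨hx, hcon⟩
    rw [if_pos (by linarith), if_pos (by linarith [abs_nonneg a]), if_pos (by linarith)]
    norm_num
  · push Not at hx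
    rw [if_neg (by linarith), if_neg (by linarith [abs_nonneg a]), if_neg (by linarith)]
    norm_num

lemma gs_hasCompactSupport (a c : ℝ) : HasCompactSupport (gs a c) :=
  HasCompactSupport.intro isCompact_Icc fun _ hx => gs_zero hx

lemma sum_hasCompactSupport (n : ℕ) (f : ℕ → ℝ → ℝ) (h : ∀ i, HasCompactSupport (f i)) :
    HasCompactSupport (fun x => ∑ i ∈ Finset.range n, f i x) := by
  induction n with
  | zero =>
    simp only [Finset.range_zero, Finset.sum_empty]
    exact HasCompactSupport.zero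
  | succ n ih =>
    simp only [Finset.sum_range_succ]
    exact ih.add (h n)

lemma F_hasCompactSupport (k : ℕ) (B Q U R : ℝ) : HasCompactSupport (F k B Q U R) := by
  unfold F
  exact ((sum_hasCompactSupport (16 * k) (fun i => gs 1 (24 * k * i)) (fun _ => gs_hasCompactSupport _ _)).add
    (gs_hasCompactSupport (U - Q) U).mul_left).add
    (sum_hasCompactSupport k (fun l => gs (3 / 2 * R) ((3 * (l + 1) + 3 / 2) * R))
      (fun _ => gs_hasCompactSupport _ _)).mul_left

/-- the cut-off `1_{(-N, N]}` -/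
noncomputable def cut (N x : ℝ) : ℝ := hv (-N) x + -1 * hv N x

lemma cut_measurable (N : ℝ) : Measurable (cut N) :=
  (hv_measurable _).add ((hv_measurable _).const_mul _)

lemma cut_one {N x : ℝ} (h : |x| < N) : cut N x = 1 := by
  rw [abs_lt] at h
  unfold cut hv
  rw [if_pos h.1, if_neg (by linarith [h.2])]
  norm_num

lemma cut_nonneg {N : ℝ} (hN : 0 ≤ N) (x : ℝ) : 0 ≤ cut N x := by
  unfold cut hv
  split_ifs with h1 h2 h2
  · norm_num
  · norm_num
  · exfalso; linarith
  · norm_num

lemma cut_le_one (N x : ℝ) : cut N x ≤ 1 := by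
  unfold cut hv
  split_ifs <;> norm_num

lemma cut_hasCompactSupport {N : ℝ} (hN : 0 ≤ N) : HasCompactSupport (cut N) := by
  refine HasCompactSupport.intro (isCompact_Icc (a := -N) (b := N)) fun x hx => ?_
  unfold cut hv
  by_cases h1 : -N < x
  · have h2 : N < x := by
      by_contra hcon
      push Not at hcon
      exact hx ⟨h1.le, hcon⟩
    rw [if_pos h1, if_pos h2]
    norm_num
  · rw [if_neg h1, if_neg (by linarith)]
    norm_num

lemma cut_eVar (N : ℝ) : eVariationOn (cut N) univ ≤ 2 := by
  unfold cut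
  refine (eVar_add_le _ _).trans ?_
  have h1 := eVar_mul_le (-1) (hv N)
  rw [abs_neg, abs_one, ENNReal.ofReal_one, one_mul] at h1
  calc _ ≤ (1 : ℝ≥0∞) + 1 := add_le_add (hv_eVar _) (h1.trans (hv_eVar _))
    _ = 2 := by norm_num

/-- the kernel sees the cut-off as the constant one -/
lemma cut_conv {φ : ℝ → ℝ} (h0 : ∀ x, 0 ≤ φ x) (hφ : Integrable φ) (h1 : ∫ x, φ x = 1) (L : ℝ)
    {δ : ℝ} (hδ : 0 < δ) : ∃ N₀ : ℝ, ∀ N, N₀ ≤ N → ∀ y t : ℝ, |y| ≤ L → 0 < t → t ≤ 1 →
      1 - δ ≤ ∫ u, φ u * cut N (y - t * u) := by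
  have hlim : Tendsto (fun m : ℝ => ∫ x in (-m)..m, φ x) atTop (𝓝 (∫ x, φ x)) :=
    intervalIntegral_tendsto_integral hφ tendsto_neg_atTop_atBot tendsto_id
  rw [h1] at hlim
  have hev := (hlim.eventually (lt_mem_nhds (show 1 - δ < 1 by linarith))).and (eventually_ge_atTop 0)
  obtain ⟨m, hm, hm0⟩ := hev.exists
  refine ⟨L + m + 1, fun N hN y t hy ht ht1 => ?_⟩
  have hL : 0 ≤ L := (abs_nonneg y).trans hy
  refine hm.le.trans ?_
  rw [intervalIntegral.integral_of_le (by linarith), ← integral_indicator measurableSet_Ioc]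
  refine integral_mono (hφ.indicator measurableSet_Ioc) ?_ fun u => ?_
  · refine hφ.mul_bdd (c := 1) ?_ (Eventually.of_forall fun u => ?_)
    · have := cut_measurable N
      have : Measurable (fun u => cut N (y - t * u)) := by fun_prop
      exact this.aestronglyMeasurable
    · rw [Real.norm_eq_abs, abs_of_nonneg (cut_nonneg (by linarith) _)]
      exact cut_le_one _ _
  · dsimp only
    by_cases hu : u ∈ Ioc (-m) m
    · rw [indicator_of_mem hu, cut_one, mul_one]
      have h2 : |u| ≤ m := abs_le.2 ⟨hu.1.le, hu.2⟩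
      have h3 : |t * u| ≤ m := by
        rw [abs_mul, abs_of_pos ht]
        calc t * |u| ≤ 1 * |u| := by gcongr
          _ ≤ m := by linarith
      calc |y - t * u| ≤ |y| + |t * u| := abs_sub _ _
        _ < N := by linarith
    · rw [indicator_of_notMem hu]
      exact mul_nonneg (h0 u) (cut_nonneg (by linarith) _)

lemma cut_abs_le {N : ℝ} (hN : 0 ≤ N) (y : ℝ) : |cut N y| ≤ 1 := by
  rw [abs_of_nonneg (cut_nonneg hN y)]
  exact cut_le_one _ _

/-- the convolution integral for a nonnegative function -/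
lemma conv_nonneg_eq (φ : ℝ → ℝ) {f : ℝ → ℝ} (hf : ∀ x, 0 ≤ f x) (x : ℝ) {t : ℝ} (ht : 0 < t) :
    ∫ y, t⁻¹ * φ (y / t) * |f (x - y)| = ∫ u, φ u * f (x - t * u) := by
  rw [conv_eq φ f x ht]
  simp only [abs_of_nonneg (hf _)]

lemma Good.unbounded {φ : ℝ → ℝ} (hφ : Good Rr φ) (C : ℝ≥0) :
    ∃ f : ℝ → ℝ, ContDiff ℝ ∞ f ∧ HasCompactSupport f ∧ (∀ x, 0 ≤ f x) ∧
      BoundedVariationOn f univ ∧
      C * eVariationOn f univ < eVariationOn (maxConv φ f) univ := by
  obtain ⟨n, hn⟩ : ∃ n : ℕ, 800 * (C : ℝ) < 3 / 8 * 2 ^ (n + 1) := by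
    obtain ⟨m, hm⟩ := pow_unbounded_of_one_lt ((800 : ℝ) * C * (8 / 3)) (by norm_num : (1 : ℝ) < 2)
    refine ⟨m, ?_⟩
    rw [pow_succ]
    have : (0 : ℝ) < 2 ^ m := by positivity
    linarith
  have h := hyp n
  set k := kk (n + 1) with hk
  set G : ℝ → ℝ := F k (4 ^ (n + 2)) (Rr (n + 1) / Rr n) (6 * k * 4 ^ (n + 2) * Rr (n + 1))
    (Rr (n + 2) / Rr (n + 1)) with hG
  have hGm : Measurable G := F_measurable _ _ _ _ _
  have hk1 : (1 : ℝ) ≤ k := by exact_mod_cast kk_pos (n + 1)
  have hp := p_pos (n + 1)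
  set M : ℝ := 132 * k with hM
  have hM0 : 0 < M := by positivity
  have hGb : ∀ y, |G y| ≤ M := fun y => by
    have h1 := F_abs_le k (B := 4 ^ (n + 2)) (Q := Rr (n + 1) / Rr n)
      (U := 6 * k * 4 ^ (n + 2) * Rr (n + 1)) (R := Rr (n + 2) / Rr (n + 1)) (by positivity) y
    have h2 := B_le_k n
    rw [← hk] at h2
    rw [hG, hM]
    linarith
  have hGv : eVariationOn G univ ≤ ENNReal.ofReal (132 * k) := F_eVar k (by positivity) (B_le_k n)
  -- the cut-off
  obtain ⟨Z, hZ⟩ : ∃ Z : ℝ, ∀ x, Z < |x| → G x = 0 := by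
    have hc : HasCompactSupport G := F_hasCompactSupport _ _ _ _ _
    obtain ⟨Z, hZ⟩ := hc.isCompact.isBounded.subset_closedBall (0 : ℝ)
    refine ⟨Z, fun x hx => ?_⟩
    by_contra hne
    have h1 := hZ (subset_tsupport G (Function.mem_support.2 hne))
    rw [Metric.mem_closedBall, Real.dist_eq, sub_zero] at h1
    linarith
  set δ : ℝ := p (n + 1) / (32 * k * M) with hδ
  have hδ0 : 0 < δ := by positivity
  obtain ⟨N₀, hN₀⟩ := cut_conv hφ.nonneg hφ.int hφ.one (384 * (k : ℝ) ^ 2 + 1) hδ0
  set N : ℝ := max (max N₀ Z) 0 + 1 with hN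
  have hN0 : 0 ≤ N := by
    have := le_max_right (max N₀ Z) 0
    linarith
  have hNN : N₀ ≤ N := by
    have h1 := le_max_left N₀ Z
    have h2 := le_max_left (max N₀ Z) 0
    linarith
  have hNZ : Z < N := by
    have h1 := le_max_right N₀ Z
    have h2 := le_max_left (max N₀ Z) 0
    linarith
  -- the function before mollification
  set g : ℝ → ℝ := fun x => M * cut N x + G x with hg
  have hgm : Measurable g := ((cut_measurable N).const_mul _).add hGm
  have hg0 : ∀ x, 0 ≤ g x := by
    intro x
    rw [hg]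
    dsimp only
    by_cases hx : |x| < N
    · rw [cut_one hx]
      linarith [(abs_le.1 (hGb x)).1]
    · push Not at hx
      rw [hZ x (by linarith)]
      have := cut_nonneg hN0 x
      positivity
  have hgb : ∀ x, |g x| ≤ 2 * M := by
    intro x
    rw [hg]
    dsimp only
    refine (abs_add_le _ _).trans ?_
    rw [abs_mul, abs_of_pos hM0]
    nlinarith [cut_abs_le hN0 x, hGb x]
  have hgc : HasCompactSupport g := (cut_hasCompactSupport hN0).mul_left.add (F_hasCompactSupport _ _ _ _ _)
  have hgi : Integrable g := by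
    refine Integrable.add ?_ ?_
    · refine Integrable.const_mul ?_ M
      refine Measure.integrableOn_of_bounded (s := tsupport (cut N)) (M := 1) ?_ ?_ ?_ |>.integrable_of_forall_notMem_eq_zero ?_
      · exact (cut_hasCompactSupport hN0).isCompact.measure_lt_top.ne
      · exact (cut_measurable N).aestronglyMeasurable
      · exact Eventually.of_forall fun x => by rw [Real.norm_eq_abs]; exact cut_abs_le hN0 x
      · intro x hx
        exact image_eq_zero_of_notMem_tsupport hx
    · refine Measure.integrableOn_of_bounded (s := tsupport G) (M := M) ?_ ?_ ?_ |>.integrable_of_forall_notMem_eq_zero ?_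
      · exact (F_hasCompactSupport _ _ _ _ _).isCompact.measure_lt_top.ne
      · exact hGm.aestronglyMeasurable
      · exact Eventually.of_forall fun x => by rw [Real.norm_eq_abs]; exact hGb x
      · intro x hx
        exact image_eq_zero_of_notMem_tsupport hx
  have hgv : eVariationOn g univ ≤ ENNReal.ofReal (396 * k) := by
    refine (eVar_add_le _ _).trans ?_
    have h1 := eVar_mul_le M (cut N)
    rw [abs_of_pos hM0] at h1
    calc _ ≤ ENNReal.ofReal M * 2 + ENNReal.ofReal (132 * k) := by
          refine add_le_add (h1.trans ?_) hGv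
          gcongr
          exact cut_eVar N
      _ = ENNReal.ofReal (396 * k) := by
          rw [← ENNReal.ofReal_ofNat 2, ← ENNReal.ofReal_mul hM0.le,
            ← ENNReal.ofReal_add (by positivity) (by positivity)]
          congr 1
          rw [hM]
          ring
  have hfv : eVariationOn (moll g) univ ≤ ENNReal.ofReal (396 * k) := (moll_eVar hgm hgb).trans hgv
  have hf0 : ∀ x, 0 ≤ moll g x := moll_nonneg hg0
  refine ⟨moll g, moll_contDiff hgi.locallyIntegrable, moll_hasCompactSupport hgc, hf0,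
    (hfv.trans_lt ENNReal.ofReal_lt_top).ne, ?_⟩
  have hne : Nonempty (Set.Ioi (0 : ℝ)) := ⟨⟨1, by norm_num⟩⟩
  -- splitting of the convolution of `g`
  have hsplit : ∀ y t : ℝ, ∫ u, φ u * g (y - t * u) =
      M * (∫ u, φ u * cut N (y - t * u)) + ∫ u, φ u * G (y - t * u) := by
    intro y t
    have i1 : Integrable (fun u => φ u * cut N (y - t * u)) := by
      refine hφ.int.mul_bdd (c := 1) ?_ (Eventually.of_forall fun u => ?_)
      · have := cut_measurable N
        have : Measurable (fun u => cut N (y - t * u)) := by fun_prop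
        exact this.aestronglyMeasurable
      · rw [Real.norm_eq_abs]
        exact cut_abs_le hN0 _
    have i2 : Integrable (fun u => φ u * G (y - t * u)) := by
      refine hφ.int.mul_bdd (c := M) ?_ (Eventually.of_forall fun u => ?_)
      · have : Measurable (fun u => G (y - t * u)) := by fun_prop
        exact this.aestronglyMeasurable
      · rw [Real.norm_eq_abs]
        exact hGb _
    rw [← integral_const_mul, ← integral_add (i1.const_mul M) i2]
    congr 1
    funext u
    rw [hg]
    ring
  have hcut1 : ∀ y t : ℝ, ∫ u, φ u * cut N (y - t * u) ≤ 1 := fun y t =>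
    hφ.abs_conv_le (fun x => cut_abs_le hN0 x) y t
  -- upper bound in the valleys
  have hup : ∀ i l : ℕ, i < 16 * k → l < k →
      maxConv φ (moll g) (24 * k * i + 3 * (l + 1) + 3 / 2) ≤ M + p (n + 1) / (18 * (l + 1)) := by
    intro i l hi hl
    unfold maxConv
    refine ciSup_le fun t => ?_
    rw [conv_nonneg_eq φ hf0 _ t.2]
    refine moll_le hφ.int hgm hgb _ _ fun y hy => ?_
    rw [hsplit]
    have h1 := hφ.le G M y t (p (n + 1) / (18 * (l + 1))) hGm hGb t.2
      (fun x' hx' => valley h hi hl t.2 (by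
        have := abs_sub_le x' y (24 * k * i + 3 * (l + 1) + 3 / 2)
        linarith))
    have h2 : M * (∫ u, φ u * cut N (y - t * u)) ≤ M * 1 := by
      gcongr
      exact hcut1 _ _
    linarith
  -- lower bound at the peaks
  have hlow : ∀ i l : ℕ, i < 16 * k → l < k →
      M * (1 - δ) + 17 * p (n + 1) / (144 * (l + 1)) ≤
      maxConv φ (moll g) (24 * k * i + 3 * (l + 1)) := by
    intro i l hi hl
    unfold maxConv
    have hb : BddAbove (Set.range fun t : Set.Ioi (0 : ℝ) =>
        ∫ y, (t : ℝ)⁻¹ * φ (y / t) * |moll g ((24 * k * i + 3 * (l + 1)) - y)|) := by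
      refine ⟨2 * M, ?_⟩
      rintro _ ⟨t, rfl⟩
      dsimp only
      rw [conv_nonneg_eq φ hf0 _ t.2]
      exact moll_le hφ.int hgm hgb _ _ fun y _ => hφ.abs_conv_le hgb y t
    have hRp : 32 ≤ Rr (n + 1) := Rr_ge (n + 1)
    have hRp0 : 0 < Rr (n + 1) := by linarith
    have ht : 0 < 3 * ((l : ℝ) + 1) / Rr (n + 1) := by positivity
    have hl' : (l : ℝ) + 1 ≤ k := by exact_mod_cast hl
    have hi' : (i : ℝ) + 1 ≤ 16 * k := by exact_mod_cast hi
    have hi0 : (0 : ℝ) ≤ i := Nat.cast_nonneg i
    have hl0 : (0 : ℝ) ≤ l := Nat.cast_nonneg l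
    have ht1 : 3 * ((l : ℝ) + 1) / Rr (n + 1) ≤ 1 := by
      rw [div_le_one hRp0]
      have h1 := h.L_le_Q
      have h2 := h.hQ
      have h3 := Rr_ge n
      have h4 : 384 * (k : ℝ) ^ 2 * 32 ≤ Rr (n + 1) := by
        rw [h2]
        have : (0 : ℝ) ≤ 384 * (k : ℝ) ^ 2 := by positivity
        gcongr
      nlinarith
    have hcL : 24 * (k : ℝ) * i + 3 * (l + 1) ≤ 384 * (k : ℝ) ^ 2 := by
      have h5 : 24 * (k : ℝ) * (i + 1) ≤ 24 * k * (16 * k) := by gcongr
      nlinarith
    refine le_trans ?_ (le_ciSup hb ⟨_, ht⟩)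
    dsimp only
    rw [conv_nonneg_eq φ hf0 _ ht]
    refine le_moll hφ.int hgm hgb _ _ fun y hy => ?_
    rw [hsplit]
    have h1 := hφ.ge G M y (3 * ((l : ℝ) + 1) / Rr (n + 1))
      (17 * p (n + 1) / (144 * (l + 1))) hGm hGb ht
      (fun x' hx' => peak h hi hl (div_mul_cancel₀ _ hRp0.ne') (by
        have := abs_sub_le x' y (24 * k * i + 3 * (l + 1))
        linarith))
    have hyL : |y| ≤ 384 * (k : ℝ) ^ 2 + 1 := by
      rw [abs_le] at hy ⊢
      have h6 : 0 ≤ 24 * (k : ℝ) * i := by positivity
      constructor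
      · have : 0 ≤ 384 * (k : ℝ) ^ 2 := by positivity
        linarith [hy.1]
      · linarith [hy.2]
    have h2 := hN₀ N hNN y (3 * ((l : ℝ) + 1) / Rr (n + 1)) hyL ht ht1
    have h3 : M * (1 - δ) ≤ M * (∫ u, φ u * cut N (y - (3 * ((l : ℝ) + 1) / Rr (n + 1)) * u)) := by
      gcongr
    linarith
  have hvar := var_lower (M := maxConv φ (moll g)) (k := k) (c := p (n + 1) / 32)
    (by positivity) (fun i l hi hl => by
      have h1 := hup i l hi hl
      have h2 := hlow i l hi hl
      have hl' : (l : ℝ) + 1 ≤ k := by exact_mod_cast hl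
      have e : p (n + 1) / 16 / ((l : ℝ) + 1) =
          17 * p (n + 1) / (144 * (l + 1)) - p (n + 1) / (18 * (l + 1)) := by
        field_simp
        norm_num
      have e2 : p (n + 1) / 16 / ((l : ℝ) + 1) =
          p (n + 1) / 32 / ((l : ℝ) + 1) + p (n + 1) / 32 / ((l : ℝ) + 1) := by
        field_simp
        norm_num
      have e3 : M * δ = p (n + 1) / 32 / k := by
        rw [hδ]
        field_simp
      have h3 : p (n + 1) / 32 / k ≤ p (n + 1) / 32 / ((l : ℝ) + 1) := by
        apply div_le_div_of_nonneg_left (by positivity) (by positivity) hl'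
      have h4 : M * (1 - δ) = M - M * δ := by ring
      linarith)
  refine lt_of_lt_of_le ?_ hvar
  calc (C : ℝ≥0∞) * eVariationOn (moll g) univ ≤ C * ENNReal.ofReal (396 * k) := by gcongr
    _ = ENNReal.ofReal (C * (396 * k)) := by
        rw [ENNReal.ofReal_mul (NNReal.coe_nonneg C), ENNReal.ofReal_coe_nnreal]
    _ < ENNReal.ofReal (16 * k * (p (n + 1) / 32 * Real.log k)) := by
        have h1 := p_log n
        rw [← hk] at h1
        have h2 : (0 : ℝ) ≤ C := NNReal.coe_nonneg C
        have h3 : 0 < p (n + 1) * Real.log k := by linarith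
        have e : 16 * (k : ℝ) * (p (n + 1) / 32 * Real.log k) = k * (p (n + 1) * Real.log k / 2) := by
          ring
        rw [e, ENNReal.ofReal_lt_ofReal_iff (by positivity)]
        have h4 : 396 * (C : ℝ) < p (n + 1) * Real.log k / 2 := by linarith
        nlinarith

end Pool.Agent.Results.MP_0067de_an.DecreasingKernel
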