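import Mathlib

open MeasureTheory Set Filter Topology
open scoped ENNReal NNReal ContDiff

namespace Pool.Agent.Results.MP_0067de_an.DecreasingKernel

/-- `M_φ f (x) = sup_{t > 0} (φ_t * |f|)(x)` with `φ_t(y) = t⁻¹ φ(y / t)`. -/
noncomputable def maxConv (φ f : ℝ → ℝ) (x : ℝ) : ℝ :=
  ⨆ t : Set.Ioi (0 : ℝ), ∫ y, (t : ℝ)⁻¹ * φ (y / t) * |f (x - y)|

end Pool.Agent.Results.MP_0067de_an.DecreasingKernel
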